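import Pool.Agent.U991.L6.Link
import Pool.Agent.H122R2.N6.KK

/-! Six-vertex certificates for functions of the links: the general theorem. -/

set_option autoImplicit false
set_option maxRecDepth 100000
set_option maxHeartbeats 4000000
open Finset

namespace Pool.Agent.U991.L6
open Pool.Agent.H122R2.N6 Pool.Agent.Y580.FL Pool.Agent.R85.GT

def TP : ℕ := 0x3f3e3d3c3b3a393837363534333231302f2e2d2c2b2a292827262524232221201f1e1d1c1b1a191817161514131211100f0e0d0c0b0a090807060504030201003f3b2f2b1f1b0f0b3e3a2e2a1e1a0e0a3d392d291d190d093c382c281c180c0837332723171307033632262216120602353125211511050134302420141004003f3b3e3a3d393c382f2b2e2a2d292c281f1b1e1a1d191c180f0b0e0a0d090c0837333632353134302723262225212420171316121511141007030602050104003f1f3d1d371735153b1b3919331331112f0f2d0d270725052b0b2909230321013e1e3c1c361634143a1a3818321230102e0e2c0c260624042a0a2808220220003f3e3b3a3d3c39382f2e2b2a2d2c2928373633323534313027262322252421201f1e1b1a1d1c1918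0f0e0b0a0d0c0908171613121514111007060302050401003f3d1f1d373517153b391b19333113113e3c1e1c363416143a381a18323012102f2d0f0d272507052b290b09232103012e2c0e0c262406042a280a08222002003f3d3b393e3c3a381f1d1b191e1c1a18373533313634323017151311161412102f2d2b292e2c2a280f0d0b090e0c0a08272523212624222007050301060402003f372f273e362e261f170f071e160e063d352d253c342c241d150d051c140c043b332b233a322a221b130b031a120a02393129213830282019110901181008003f3e3d3c3b3a393837363534333231302f2e2d2c2b2a292827262524232221201f1e1d1c1b1a191817161514131211100f0e0d0c0b0a090807060504030201003f3d37351f1d17153e3c36341e1c16143b3933311b1913113a3832301a1812102f2d27250f0d07052e2c26240e0c06042b2923210b0903012a2822200a0802003f3d3e3c3b393a3837353634333132301f1d1e1c1b191a1817151614131112102f2d2e2c2b292a2827252624232122200f0d0e0c0b090a0807050604030102003f373e362f272e263d353c342d252c241f171e160f070e061d151c140d050c043b333a322b232a2239313830292128201b131a120b030a0219111810090108003f3e3d3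c3b3a393837363534333231302f2e2d2c2b2a292827262524232221201f1e1d1c1b1a191817161514131211100f0e0d0c0b0a090807060504030201003f3e37362f2e27263d3c35342d2c25243b3a33322b2a232239383130292821201f1e17160f0e07061d1c15140d0c05041b1a13120b0a030219181110090801003f3e3d3c3b3a393837363534333231302f2e2d2c2b2a292827262524232221201f1e1d1c1b1a191817161514131211100f0e0d0c0b0a090807060504030201003f3e3d3c3b3a393837363534333231302f2e2d2c2b2a292827262524232221201f1e1d1c1b1a191817161514131211100f0e0d0c0b0a09080706050403020100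

def RT : ℕ := 0x332322132212110

/-- the isomorphism type of a code on four vertices -/
def rho (c : ℕ) : ℕ := Nat.mod (Nat.shiftRight RT (Nat.mul 4 c)) 16

/-- the relabelling of the flags -/
def pc (c i : ℕ) : ℕ := Nat.mod (Nat.shiftRight TP (Nat.mul 8 (Nat.add (Nat.mul 64 c) i))) 256

def qq (tq : ℕ → ℕ → ℕ → ℕ) (c i j : ℕ) : ℕ := tq (rho c) (pc c i) (pc c j)

theorem rng : (nall 16 fun c => and (Nat.blt (rho c) 4) (nall 64 fun i => Nat.blt (pc c i) 64)) = true := by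
  decide +kernel

theorem rho_lt {c : ℕ} (h : c < 16) : rho c < 4 := by
  have := nall_true rng c h
  rw [Bool.and_eq_true] at this
  exact Nat.le_of_ble_eq_true this.1

theorem pc_lt {c i : ℕ} (h : c < 16) (hi : i < 64) : pc c i < 64 := by
  have := nall_true rng c h
  rw [Bool.and_eq_true] at this
  exact Nat.le_of_ble_eq_true (nall_true this.2 i hi)

def chkP (W K OFF SH : ℕ) (w4 : ℕ → ℕ → ℕ) (l4 tq : ℕ → ℕ → ℕ → ℕ) : Bool :=
  nall 4 fun r => nall 64 fun i => prow W K OFF SH (w4 r) (l4 r) (tq r) i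

def g2 (K2 OFF SH : ℕ) (w2 : ℕ → ℕ) (l2 q2 : ℕ → ℕ → ℕ) (i j : ℕ) : Bool :=
  Nat.beq (Nat.add (nsum K2 fun k => Nat.mul (w2 k) (Nat.mul (l2 i k) (l2 j k)))
      (Nat.add (Nat.mul (Nat.mul OFF OFF) (nsum K2 fun k => w2 k)) SH))
    (Nat.add (q2 i j) (Nat.mul OFF (Nat.add (nsum K2 fun k => Nat.mul (w2 k) (l2 i k))
      (nsum K2 fun k => Nat.mul (w2 k) (l2 j k)))))

def chkB (K2 OFF SH : ℕ) (w2 : ℕ → ℕ) (l2 q2 : ℕ → ℕ → ℕ) : Bool :=
  nall 16 fun i => nall 16 fun j => g2 K2 OFF SH w2 l2 q2 i j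

/-- the ten single edges -/
def LE1 : ℕ := 0x8010020040080100200400801

theorem LE1_ok : F5.chkO 32 LE1 10 = true := by decide +kernel

theorem certL {V : Type} [Fintype V] {E : V → V → V → ℕ} (hE : Sy E) (hK : NoK4 E)
    {W K K2 OFF SH CB WB EB G C P R T : ℕ} {w4 : ℕ → ℕ → ℕ} {l4 tq : ℕ → ℕ → ℕ → ℕ}
    {w2 : ℕ → ℕ} {l2 q2 : ℕ → ℕ → ℕ} {tab : ℕ → ℕ}
    (ht : ∀ r i j, tq r i j < 2 ^ CB) (hw : ∀ r k, w4 r k < 2 ^ WB) (hl : ∀ r i k, l4 r i k < 2 ^ EB)
    (hb1 : K * (2 ^ WB * (2 ^ EB * 2 ^ EB)) + (OFF * OFF * (K * 2 ^ WB) + SH) < 2 ^ W)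
    (hb2 : 2 ^ CB + OFF * (K * (2 ^ WB * 2 ^ EB) + K * (2 ^ WB * 2 ^ EB)) ≤ 2 ^ W)
    (hp : chkP W K OFF SH w4 l4 tq = true) (hpb : chkB K2 OFF SH w2 l2 q2 = true)
    (hs4 : sym4 (qq tq) = true) (hs2 : sym2 q2 = true)
    (hrep : (nall 964 fun r => leafc (qq tq) q2 (ZL tab G C P) (rep r)) = true)
    (hi : invk tab = true) (htab : ∀ c, tab c ≤ T) (hG : G * (6 * T) ≤ C) (hC : C = 60 * SH + R) :
    6 * G * SL tab E ≤ R * (Fintype.card V) ^ 6 +
      P * ∑ x : Fin 6 → V, Pool.Agent.Y850.FA.XM E 14 (x 0) (x 1) (x 2) (x 3) (x 4) (x 5) := by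
  have hq4 : ∀ c i j, c < 16 → i < 64 → j < 64 → (qq tq c i j : ℤ) =
      ∑ k ∈ range K, (w4 (rho c) k : ℤ) * ((l4 (rho c) (pc c i) k : ℤ) - OFF) *
        ((l4 (rho c) (pc c j) k : ℤ) - OFF) + (SH + (fun _ : ℕ => (0 : ℤ)) c) := by
    intro c i j hc hi hj
    have h := psd_ok (nall_true (nall_true hp _ (rho_lt hc)) _ (pc_lt hc hi)) (ht _ _) (hw _)
      (hl _) hb1 hb2 (pc_lt hc hj)
    have h2 := congrArg (fun n : ℕ => (n : ℤ)) h
    push_cast at h2
    rw [expand (range K) (fun k => w4 (rho c) k) (fun k => l4 (rho c) (pc c i) k)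
      (fun k => l4 (rho c) (pc c j) k) OFF]
    have h3 : (qq tq c i j : ℤ) = (tq (rho c) (pc c i) (pc c j) : ℤ) := rfl
    rw [h3]
    linarith
  have hq2 : ∀ i j, i < 16 → j < 16 → (q2 i j : ℤ) =
      ∑ k ∈ range K2, (w2 k : ℤ) * ((l2 i k : ℤ) - OFF) * ((l2 j k : ℤ) - OFF)
        + (SH + (fun _ : ℕ => (0 : ℤ)) (kk i j)) := by
    intro i j hi hj
    have h := Nat.eq_of_beq_eq_true (nall_true (nall_true hpb i hi) j hj)
    rw [nsum_eq, nsum_eq, nsum_eq, nsum_eq] at h
    have h2 := congrArg (fun n : ℕ => (n : ℤ)) h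
    simp only [Nat.add_eq, Nat.mul_eq] at h2
    push_cast at h2
    rw [expand (range K2) (fun k => w2 k) (fun k => l2 i k) (fun k => l2 j k) OFF]
    linarith
  have hb := boundY E hE K K2 (ZE E (ZL tab G C P)) (qq tq)
    (fun c k => w4 (rho c) k) (fun c i k => l4 (rho c) (pc c i) k)
    q2 w2 l2 OFF SH SH (fun _ => (0 : ℤ)) (fun _ => (0 : ℤ)) hq4 hq2
    (six_all hE hK (hL0 hE hi G C P) (hL1 hE hi G C P) (hL2 hE hi G C P) (hL3 hE hi G C P)
      (hL4 hE hi G C P) hs4 hs2 (fun r hr => nall_true hrep r hr))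
  rw [F5.sv_zero, F5.t2_zero, mul_zero, mul_zero, mul_zero, zero_add, zero_add] at hb
  exact conclL tab hE G C P R T SH htab hG hC (by exact_mod_cast hb)

end Pool.Agent.U991.L6
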