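import Pool.Agent.U991.L6.Common

/-! Graphs on four and five vertices, and the number of copies in the links. -/

set_option autoImplicit false
set_option maxRecDepth 100000
set_option maxHeartbeats 4000000
set_option linter.unreachableTactic false
set_option linter.unusedTactic false
open Finset

namespace Pool.Agent.U991.L6
open Pool.Agent.H122R2.N6 Pool.Agent.R85.GT

/-- indicator of adjacency -/
noncomputable def ad {k : ℕ} (G : SimpleGraph (Fin k)) (i j : Fin k) : ℕ := by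
  classical exact if G.Adj i j then 1 else 0

theorem ad_Bt {k : ℕ} (G : SimpleGraph (Fin k)) (i j : Fin k) : Bt (ad G i j) := by
  unfold ad Bt; split_ifs <;> simp

theorem ad_le {k : ℕ} (G : SimpleGraph (Fin k)) (i j : Fin k) {b : ℕ} (hb : Bt b) :
    ad G i j ≤ b ↔ (G.Adj i j → b = 1) := by
  unfold ad
  by_cases h : G.Adj i j
  · rw [if_pos h]
    rcases hb with rfl | rfl
    · exact ⟨fun h2 => absurd h2 (by norm_num), fun h2 => absurd (h2 h) (by norm_num)⟩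
    · exact ⟨fun _ _ => rfl, fun _ => le_refl _⟩
  · rw [if_neg h]
    exact ⟨fun _ h2 => absurd h2 h, fun _ => Nat.zero_le _⟩

open scoped Classical in
/-- the number of pairs of a vertex and a homomorphism from the graph to its link -/
noncomputable def homsL {k : ℕ} {V : Type} [Fintype V] (E : V → V → V → ℕ) (G : SimpleGraph (Fin k)) : ℕ :=
  (univ.filter fun p : V × (Fin k → V) => ∀ i j, G.Adj i j → E p.1 (p.2 i) (p.2 j) = 1).card

/-- an edge between the two sides -/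
theorem cut {k : ℕ} {G : SimpleGraph (Fin k)} (hG : G.Connected) (S : Finset (Fin k)) {u v : Fin k}
    (hu : u ∈ S) (hv : v ∉ S) : ∃ i j, i ∈ S ∧ j ∉ S ∧ G.Adj i j := by
  obtain ⟨p⟩ := hG.preconnected u v
  obtain ⟨d, -, h1, h2⟩ := p.exists_boundary_dart (S : Set (Fin k)) (by exact_mod_cast hu)
    (by exact_mod_cast hv)
  exact ⟨d.fst, d.snd, by exact_mod_cast h1, by exact_mod_cast h2, d.adj⟩

/-- the code of a graph on 5 vertices -/
noncomputable def mask5 (G : SimpleGraph (Fin 5)) : ℕ :=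
  cd5 (ad G 3 4) (ad G 2 4) (ad G 1 4) (ad G 0 4) (ad G 2 3) (ad G 1 3) (ad G 0 3) (ad G 1 2) (ad G 0 2) (ad G 0 1)

theorem pairs5 {G : SimpleGraph (Fin 5)} {P : Fin 5 → Fin 5 → Prop} (hP : ∀ i j, P i j → P j i) :
    (∀ i j, G.Adj i j → P i j) ↔ ((G.Adj 3 4 → P 3 4) ∧ (G.Adj 2 4 → P 2 4) ∧ (G.Adj 1 4 → P 1 4) ∧ (G.Adj 0 4 → P 0 4) ∧ (G.Adj 2 3 → P 2 3) ∧ (G.Adj 1 3 → P 1 3) ∧ (G.Adj 0 3 → P 0 3) ∧ (G.Adj 1 2 → P 1 2) ∧ (G.Adj 0 2 → P 0 2) ∧ (G.Adj 0 1 → P 0 1)) := by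
  constructor
  · intro h
    exact ⟨h _ _, h _ _, h _ _, h _ _, h _ _, h _ _, h _ _, h _ _, h _ _, h _ _⟩
  · rintro ⟨a0, a1, a2, a3, a4, a5, a6, a7, a8, a9⟩ i j h
    fin_cases i <;> fin_cases j
    · exact absurd h (G.loopless.irrefl _)
    · exact a9 h
    · exact a8 h
    · exact a6 h
    · exact a3 h
    · exact hP _ _ (a9 h.symm)
    · exact absurd h (G.loopless.irrefl _)
    · exact a7 h
    · exact a5 h
    · exact a2 h
    · exact hP _ _ (a8 h.symm)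
    · exact hP _ _ (a7 h.symm)
    · exact absurd h (G.loopless.irrefl _)
    · exact a4 h
    · exact a1 h
    · exact hP _ _ (a6 h.symm)
    · exact hP _ _ (a5 h.symm)
    · exact hP _ _ (a4 h.symm)
    · exact absurd h (G.loopless.irrefl _)
    · exact a0 h
    · exact hP _ _ (a3 h.symm)
    · exact hP _ _ (a2 h.symm)
    · exact hP _ _ (a1 h.symm)
    · exact hP _ _ (a0 h.symm)
    · exact absurd h (G.loopless.irrefl _)

/-- the map of the last point and the first five points -/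
def glue5 {V : Type} : (V × (Fin 5 → V)) ≃ (Fin 6 → V) where
  toFun p := fun i => if h : i.val < 5 then p.2 ⟨i.val, h⟩ else p.1
  invFun x := (x 5, fun i => x i.castSucc)
  left_inv p := by
    refine Prod.ext rfl ?_
    funext i
    have h : (i.castSucc : Fin 6).val < 5 := i.isLt
    simp only [dif_pos h]
    rfl
  right_inv x := by
    funext i
    by_cases h : i.val < 5
    · simp only [dif_pos h]
      rfl
    · simp only [dif_neg h]
      congr 1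
      exact Fin.ext (by have := i.isLt; show 5 = i.val; omega)

theorem NL5 {V : Type} [Fintype V] {E : V → V → V → ℕ} (hE : Sy E) (G : SimpleGraph (Fin 5)) :
    NL E (mask5 G) = homsL E G := by
  classical
  unfold homsL
  rw [card_filter]
  unfold NL SL
  rw [← (glue5 (V := V)).sum_comp]
  refine sum_congr rfl fun p _ => ?_
  change LE (sbn (mask5 G)) E (p.2 0) (p.2 1) (p.2 2) (p.2 3) (p.2 4) p.1 = _
  unfold LE mask5
  rw [sb_iff (ad_Bt _ _ _) (ad_Bt _ _ _) (ad_Bt _ _ _) (ad_Bt _ _ _) (ad_Bt _ _ _) (ad_Bt _ _ _) (ad_Bt _ _ _) (ad_Bt _ _ _) (ad_Bt _ _ _) (ad_Bt _ _ _) (hE.b _ _ _) (hE.b _ _ _) (hE.b _ _ _) (hE.b _ _ _) (hE.b _ _ _) (hE.b _ _ _) (hE.b _ _ _) (hE.b _ _ _) (hE.b _ _ _) (hE.b _ _ _)]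
  refine if_congr ?_ rfl rfl
  rw [pairs5 (P := fun i j => E p.1 (p.2 i) (p.2 j) = 1) (fun i j h => by rw [hE.h132]; exact h)]
  have e : ∀ a b c : V, E a b c = E c a b := fun a b c => (hE.h312 a b c).symm
  simp only [ad_le G _ _ (hE.b _ _ _), e _ _ p.1]

/-- some cut is empty -/
def dis5 (m34 m24 m14 m04 m23 m13 m03 m12 m02 m01 : ℕ) : Bool :=
  (or (Nat.beq (sbn (cd5 m34 m24 m14 m04 m23 m13 m03 m12 m02 m01) (cd5 1 1 1 0 1 1 0 1 0 0)) 1) (or (Nat.beq (sbn (cd5 m34 m24 m14 m04 m23 m13 m03 m12 m02 m01) (cd5 1 1 0 0 1 0 0 0 0 1)) 1) (or (Nat.beq (sbn (cd5 m34 m24 m14 m04 m23 m13 m03 m12 m02 m01) (cd5 1 0 1 0 0 1 0 0 1 0)) 1) (or (Nat.beq (sbn (cd5 m34 m24 m14 m04 m23 m13 m03 m12 m02 m01) (cd5 1 0 0 0 0 0 0 1 1 1)) 1) (or (Nat.beq (sbn (cd5 m34 m24 m14 m04 m23 m13 m03 m12 m02 m01) (cd5 0 1 1 0 0 0 1 1 0 0)) 1) (or (Nat.beq (sbn (cd5 m34 m24 m14 m04 m23 m13 m03 m12 m02 m01) (cd5 0 1 0 0 0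 1 1 0 0 1)) 1) (or (Nat.beq (sbn (cd5 m34 m24 m14 m04 m23 m13 m03 m12 m02 m01) (cd5 0 0 1 0 1 0 1 0 1 0)) 1) (or (Nat.beq (sbn (cd5 m34 m24 m14 m04 m23 m13 m03 m12 m02 m01) (cd5 0 0 0 0 1 1 1 1 1 1)) 1) (or (Nat.beq (sbn (cd5 m34 m24 m14 m04 m23 m13 m03 m12 m02 m01) (cd5 0 0 0 1 1 1 0 1 0 0)) 1) (or (Nat.beq (sbn (cd5 m34 m24 m14 m04 m23 m13 m03 m12 m02 m01) (cd5 0 0 1 1 1 0 0 0 0 1)) 1) (or (Nat.beq (sbn (cd5 m34 m24 m14 m04 m23 m13 m03 m12 m02 m01) (cd5 0 1 0 1 0 1 0 0 1 0)) 1) (or (Nat.beq (sbn (cd5 m34 m24 m14 m04 m23 m13 m03 m12 m02 m01) (cd5 0 1 1 1 0 0 0 1 1 1)) 1) (or (Nat.beq (sbn (cd5 m34 m24 m14 m04 m23 m13 m03 m12 m02 m01) (cd5 1 0 0 1 0 0 1 1 0 0)) 1) (or (Nat.beq (sbn (cd5 m34 m24 m14 m04 m23 m13 m03 m12 m02 m01) (cd5 1 0 1 1 0 1 1 0 0 1)) 1) (Nat.beq (sbn (cd5 m34 m24 m14 m04 m23 m13 m03 m12 m02 m01) (cd5 1 1 0 1 1 0 1 0 1 0)) 1)))))))))))))))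

theorem dis5_false {G : SimpleGraph (Fin 5)} (hG : G.Connected) :
    dis5 (ad G 3 4) (ad G 2 4) (ad G 1 4) (ad G 0 4) (ad G 2 3) (ad G 1 3) (ad G 0 3) (ad G 1 2) (ad G 0 2) (ad G 0 1) = false := by
  have c0 : Nat.beq (sbn (cd5 (ad G 3 4) (ad G 2 4) (ad G 1 4) (ad G 0 4) (ad G 2 3) (ad G 1 3) (ad G 0 3) (ad G 1 2) (ad G 0 2) (ad G 0 1)) (cd5 1 1 1 0 1 1 0 1 0 0)) 1 = false := by
    rw [sb_iff (ad_Bt _ _ _) (ad_Bt _ _ _) (ad_Bt _ _ _) (ad_Bt _ _ _) (ad_Bt _ _ _) (ad_Bt _ _ _) (ad_Bt _ _ _) (ad_Bt _ _ _) (ad_Bt _ _ _) (ad_Bt _ _ _) (Or.inr rfl) (Or.inr rfl) (Or.inr rfl) (Or.inl rfl) (Or.inr rfl) (Or.inr rfl) (Or.inl rfl) (Or.inr rfl) (Or.inl rfl) (Or.inl rfl), if_neg]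
    · rfl
    · rintro ⟨g0, g1, g2, g3, g4, g5, g6, g7, g8, g9⟩
      obtain ⟨i, j, hi, hj, hij⟩ := cut hG ({0} : Finset (Fin 5)) (u := 0) (v := 1) (by decide) (by decide)
      have hj2 : j ∈ ({1, 2, 3, 4} : Finset (Fin 5)) := by
        have h : ∀ j : Fin 5, j ∉ ({0} : Finset (Fin 5)) → j ∈ ({1, 2, 3, 4} : Finset (Fin 5)) := by decide
        exact h j hj
      clear hj
      simp only [mem_insert, mem_singleton] at hi hj2
      subst hi
      rcases hj2 with rfl | rfl | rfl | rfl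
      · exact absurd ((ad_le G _ _ (Or.inl rfl)).mp g9 hij) (by norm_num)
      · exact absurd ((ad_le G _ _ (Or.inl rfl)).mp g8 hij) (by norm_num)
      · exact absurd ((ad_le G _ _ (Or.inl rfl)).mp g6 hij) (by norm_num)
      · exact absurd ((ad_le G _ _ (Or.inl rfl)).mp g3 hij) (by norm_num)
  have c1 : Nat.beq (sbn (cd5 (ad G 3 4) (ad G 2 4) (ad G 1 4) (ad G 0 4) (ad G 2 3) (ad G 1 3) (ad G 0 3) (ad G 1 2) (ad G 0 2) (ad G 0 1)) (cd5 1 1 0 0 1 0 0 0 0 1)) 1 = false := by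
    rw [sb_iff (ad_Bt _ _ _) (ad_Bt _ _ _) (ad_Bt _ _ _) (ad_Bt _ _ _) (ad_Bt _ _ _) (ad_Bt _ _ _) (ad_Bt _ _ _) (ad_Bt _ _ _) (ad_Bt _ _ _) (ad_Bt _ _ _) (Or.inr rfl) (Or.inr rfl) (Or.inl rfl) (Or.inl rfl) (Or.inr rfl) (Or.inl rfl) (Or.inl rfl) (Or.inl rfl) (Or.inl rfl) (Or.inr rfl), if_neg]
    · rfl
    · rintro ⟨g0, g1, g2, g3, g4, g5, g6, g7, g8, g9⟩
      obtain ⟨i, j, hi, hj, hij⟩ := cut hG ({0, 1} : Finset (Fin 5)) (u := 0) (v := 2) (by decide) (by decide)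
      have hj2 : j ∈ ({2, 3, 4} : Finset (Fin 5)) := by
        have h : ∀ j : Fin 5, j ∉ ({0, 1} : Finset (Fin 5)) → j ∈ ({2, 3, 4} : Finset (Fin 5)) := by decide
        exact h j hj
      clear hj
      simp only [mem_insert, mem_singleton] at hi hj2
      rcases hi with rfl | rfl
      · rcases hj2 with rfl | rfl | rfl
        · exact absurd ((ad_le G _ _ (Or.inl rfl)).mp g8 hij) (by norm_num)
        · exact absurd ((ad_le G _ _ (Or.inl rfl)).mp g6 hij) (by norm_num)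
        · exact absurd ((ad_le G _ _ (Or.inl rfl)).mp g3 hij) (by norm_num)
      · rcases hj2 with rfl | rfl | rfl
        · exact absurd ((ad_le G _ _ (Or.inl rfl)).mp g7 hij) (by norm_num)
        · exact absurd ((ad_le G _ _ (Or.inl rfl)).mp g5 hij) (by norm_num)
        · exact absurd ((ad_le G _ _ (Or.inl rfl)).mp g2 hij) (by norm_num)
  have c2 : Nat.beq (sbn (cd5 (ad G 3 4) (ad G 2 4) (ad G 1 4) (ad G 0 4) (ad G 2 3) (ad G 1 3) (ad G 0 3) (ad G 1 2) (ad G 0 2) (ad G 0 1)) (cd5 1 0 1 0 0 1 0 0 1 0)) 1 = false := by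
    rw [sb_iff (ad_Bt _ _ _) (ad_Bt _ _ _) (ad_Bt _ _ _) (ad_Bt _ _ _) (ad_Bt _ _ _) (ad_Bt _ _ _) (ad_Bt _ _ _) (ad_Bt _ _ _) (ad_Bt _ _ _) (ad_Bt _ _ _) (Or.inr rfl) (Or.inl rfl) (Or.inr rfl) (Or.inl rfl) (Or.inl rfl) (Or.inr rfl) (Or.inl rfl) (Or.inl rfl) (Or.inr rfl) (Or.inl rfl), if_neg]
    · rfl
    · rintro ⟨g0, g1, g2, g3, g4, g5, g6, g7, g8, g9⟩
      obtain ⟨i, j, hi, hj, hij⟩ := cut hG ({0, 2} : Finset (Fin 5)) (u := 0) (v := 1) (by decide) (by decide)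
      have hj2 : j ∈ ({1, 3, 4} : Finset (Fin 5)) := by
        have h : ∀ j : Fin 5, j ∉ ({0, 2} : Finset (Fin 5)) → j ∈ ({1, 3, 4} : Finset (Fin 5)) := by decide
        exact h j hj
      clear hj
      simp only [mem_insert, mem_singleton] at hi hj2
      rcases hi with rfl | rfl
      · rcases hj2 with rfl | rfl | rfl
        · exact absurd ((ad_le G _ _ (Or.inl rfl)).mp g9 hij) (by norm_num)
        · exact absurd ((ad_le G _ _ (Or.inl rfl)).mp g6 hij) (by norm_num)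
        · exact absurd ((ad_le G _ _ (Or.inl rfl)).mp g3 hij) (by norm_num)
      · rcases hj2 with rfl | rfl | rfl
        · exact absurd ((ad_le G _ _ (Or.inl rfl)).mp g7 hij.symm) (by norm_num)
        · exact absurd ((ad_le G _ _ (Or.inl rfl)).mp g4 hij) (by norm_num)
        · exact absurd ((ad_le G _ _ (Or.inl rfl)).mp g1 hij) (by norm_num)
  have c3 : Nat.beq (sbn (cd5 (ad G 3 4) (ad G 2 4) (ad G 1 4) (ad G 0 4) (ad G 2 3) (ad G 1 3) (ad G 0 3) (ad G 1 2) (ad G 0 2) (ad G 0 1)) (cd5 1 0 0 0 0 0 0 1 1 1)) 1 = false := by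
    rw [sb_iff (ad_Bt _ _ _) (ad_Bt _ _ _) (ad_Bt _ _ _) (ad_Bt _ _ _) (ad_Bt _ _ _) (ad_Bt _ _ _) (ad_Bt _ _ _) (ad_Bt _ _ _) (ad_Bt _ _ _) (ad_Bt _ _ _) (Or.inr rfl) (Or.inl rfl) (Or.inl rfl) (Or.inl rfl) (Or.inl rfl) (Or.inl rfl) (Or.inl rfl) (Or.inr rfl) (Or.inr rfl) (Or.inr rfl), if_neg]
    · rfl
    · rintro ⟨g0, g1, g2, g3, g4, g5, g6, g7, g8, g9⟩
      obtain ⟨i, j, hi, hj, hij⟩ := cut hG ({0, 1, 2} : Finset (Fin 5)) (u := 0) (v := 3) (by decide) (by decide)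
      have hj2 : j ∈ ({3, 4} : Finset (Fin 5)) := by
        have h : ∀ j : Fin 5, j ∉ ({0, 1, 2} : Finset (Fin 5)) → j ∈ ({3, 4} : Finset (Fin 5)) := by decide
        exact h j hj
      clear hj
      simp only [mem_insert, mem_singleton] at hi hj2
      rcases hi with rfl | rfl | rfl
      · rcases hj2 with rfl | rfl
        · exact absurd ((ad_le G _ _ (Or.inl rfl)).mp g6 hij) (by norm_num)
        · exact absurd ((ad_le G _ _ (Or.inl rfl)).mp g3 hij) (by norm_num)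
      · rcases hj2 with rfl | rfl
        · exact absurd ((ad_le G _ _ (Or.inl rfl)).mp g5 hij) (by norm_num)
        · exact absurd ((ad_le G _ _ (Or.inl rfl)).mp g2 hij) (by norm_num)
      · rcases hj2 with rfl | rfl
        · exact absurd ((ad_le G _ _ (Or.inl rfl)).mp g4 hij) (by norm_num)
        · exact absurd ((ad_le G _ _ (Or.inl rfl)).mp g1 hij) (by norm_num)
  have c4 : Nat.beq (sbn (cd5 (ad G 3 4) (ad G 2 4) (ad G 1 4) (ad G 0 4) (ad G 2 3) (ad G 1 3) (ad G 0 3) (ad G 1 2) (ad G 0 2) (ad G 0 1)) (cd5 0 1 1 0 0 0 1 1 0 0)) 1 = false := by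
    rw [sb_iff (ad_Bt _ _ _) (ad_Bt _ _ _) (ad_Bt _ _ _) (ad_Bt _ _ _) (ad_Bt _ _ _) (ad_Bt _ _ _) (ad_Bt _ _ _) (ad_Bt _ _ _) (ad_Bt _ _ _) (ad_Bt _ _ _) (Or.inl rfl) (Or.inr rfl) (Or.inr rfl) (Or.inl rfl) (Or.inl rfl) (Or.inl rfl) (Or.inr rfl) (Or.inr rfl) (Or.inl rfl) (Or.inl rfl), if_neg]
    · rfl
    · rintro ⟨g0, g1, g2, g3, g4, g5, g6, g7, g8, g9⟩
      obtain ⟨i, j, hi, hj, hij⟩ := cut hG ({0, 3} : Finset (Fin 5)) (u := 0) (v := 1) (by decide) (by decide)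
      have hj2 : j ∈ ({1, 2, 4} : Finset (Fin 5)) := by
        have h : ∀ j : Fin 5, j ∉ ({0, 3} : Finset (Fin 5)) → j ∈ ({1, 2, 4} : Finset (Fin 5)) := by decide
        exact h j hj
      clear hj
      simp only [mem_insert, mem_singleton] at hi hj2
      rcases hi with rfl | rfl
      · rcases hj2 with rfl | rfl | rfl
        · exact absurd ((ad_le G _ _ (Or.inl rfl)).mp g9 hij) (by norm_num)
        · exact absurd ((ad_le G _ _ (Or.inl rfl)).mp g8 hij) (by norm_num)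
        · exact absurd ((ad_le G _ _ (Or.inl rfl)).mp g3 hij) (by norm_num)
      · rcases hj2 with rfl | rfl | rfl
        · exact absurd ((ad_le G _ _ (Or.inl rfl)).mp g5 hij.symm) (by norm_num)
        · exact absurd ((ad_le G _ _ (Or.inl rfl)).mp g4 hij.symm) (by norm_num)
        · exact absurd ((ad_le G _ _ (Or.inl rfl)).mp g0 hij) (by norm_num)
  have c5 : Nat.beq (sbn (cd5 (ad G 3 4) (ad G 2 4) (ad G 1 4) (ad G 0 4) (ad G 2 3) (ad G 1 3) (ad G 0 3) (ad G 1 2) (ad G 0 2) (ad G 0 1)) (cd5 0 1 0 0 0 1 1 0 0 1)) 1 = false := by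
    rw [sb_iff (ad_Bt _ _ _) (ad_Bt _ _ _) (ad_Bt _ _ _) (ad_Bt _ _ _) (ad_Bt _ _ _) (ad_Bt _ _ _) (ad_Bt _ _ _) (ad_Bt _ _ _) (ad_Bt _ _ _) (ad_Bt _ _ _) (Or.inl rfl) (Or.inr rfl) (Or.inl rfl) (Or.inl rfl) (Or.inl rfl) (Or.inr rfl) (Or.inr rfl) (Or.inl rfl) (Or.inl rfl) (Or.inr rfl), if_neg]
    · rfl
    · rintro ⟨g0, g1, g2, g3, g4, g5, g6, g7, g8, g9⟩
      obtain ⟨i, j, hi, hj, hij⟩ := cut hG ({0, 1, 3} : Finset (Fin 5)) (u := 0) (v := 2) (by decide) (by decide)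
      have hj2 : j ∈ ({2, 4} : Finset (Fin 5)) := by
        have h : ∀ j : Fin 5, j ∉ ({0, 1, 3} : Finset (Fin 5)) → j ∈ ({2, 4} : Finset (Fin 5)) := by decide
        exact h j hj
      clear hj
      simp only [mem_insert, mem_singleton] at hi hj2
      rcases hi with rfl | rfl | rfl
      · rcases hj2 with rfl | rfl
        · exact absurd ((ad_le G _ _ (Or.inl rfl)).mp g8 hij) (by norm_num)
        · exact absurd ((ad_le G _ _ (Or.inl rfl)).mp g3 hij) (by norm_num)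
      · rcases hj2 with rfl | rfl
        · exact absurd ((ad_le G _ _ (Or.inl rfl)).mp g7 hij) (by norm_num)
        · exact absurd ((ad_le G _ _ (Or.inl rfl)).mp g2 hij) (by norm_num)
      · rcases hj2 with rfl | rfl
        · exact absurd ((ad_le G _ _ (Or.inl rfl)).mp g4 hij.symm) (by norm_num)
        · exact absurd ((ad_le G _ _ (Or.inl rfl)).mp g0 hij) (by norm_num)
  have c6 : Nat.beq (sbn (cd5 (ad G 3 4) (ad G 2 4) (ad G 1 4) (ad G 0 4) (ad G 2 3) (ad G 1 3) (ad G 0 3) (ad G 1 2) (ad G 0 2) (ad G 0 1)) (cd5 0 0 1 0 1 0 1 0 1 0)) 1 = false := by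
    rw [sb_iff (ad_Bt _ _ _) (ad_Bt _ _ _) (ad_Bt _ _ _) (ad_Bt _ _ _) (ad_Bt _ _ _) (ad_Bt _ _ _) (ad_Bt _ _ _) (ad_Bt _ _ _) (ad_Bt _ _ _) (ad_Bt _ _ _) (Or.inl rfl) (Or.inl rfl) (Or.inr rfl) (Or.inl rfl) (Or.inr rfl) (Or.inl rfl) (Or.inr rfl) (Or.inl rfl) (Or.inr rfl) (Or.inl rfl), if_neg]
    · rfl
    · rintro ⟨g0, g1, g2, g3, g4, g5, g6, g7, g8, g9⟩
      obtain ⟨i, j, hi, hj, hij⟩ := cut hG ({0, 2, 3} : Finset (Fin 5)) (u := 0) (v := 1) (by decide) (by decide)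
      have hj2 : j ∈ ({1, 4} : Finset (Fin 5)) := by
        have h : ∀ j : Fin 5, j ∉ ({0, 2, 3} : Finset (Fin 5)) → j ∈ ({1, 4} : Finset (Fin 5)) := by decide
        exact h j hj
      clear hj
      simp only [mem_insert, mem_singleton] at hi hj2
      rcases hi with rfl | rfl | rfl
      · rcases hj2 with rfl | rfl
        · exact absurd ((ad_le G _ _ (Or.inl rfl)).mp g9 hij) (by norm_num)
        · exact absurd ((ad_le G _ _ (Or.inl rfl)).mp g3 hij) (by norm_num)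
      · rcases hj2 with rfl | rfl
        · exact absurd ((ad_le G _ _ (Or.inl rfl)).mp g7 hij.symm) (by norm_num)
        · exact absurd ((ad_le G _ _ (Or.inl rfl)).mp g1 hij) (by norm_num)
      · rcases hj2 with rfl | rfl
        · exact absurd ((ad_le G _ _ (Or.inl rfl)).mp g5 hij.symm) (by norm_num)
        · exact absurd ((ad_le G _ _ (Or.inl rfl)).mp g0 hij) (by norm_num)
  have c7 : Nat.beq (sbn (cd5 (ad G 3 4) (ad G 2 4) (ad G 1 4) (ad G 0 4) (ad G 2 3) (ad G 1 3) (ad G 0 3) (ad G 1 2) (ad G 0 2) (ad G 0 1)) (cd5 0 0 0 0 1 1 1 1 1 1)) 1 = false := by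
    rw [sb_iff (ad_Bt _ _ _) (ad_Bt _ _ _) (ad_Bt _ _ _) (ad_Bt _ _ _) (ad_Bt _ _ _) (ad_Bt _ _ _) (ad_Bt _ _ _) (ad_Bt _ _ _) (ad_Bt _ _ _) (ad_Bt _ _ _) (Or.inl rfl) (Or.inl rfl) (Or.inl rfl) (Or.inl rfl) (Or.inr rfl) (Or.inr rfl) (Or.inr rfl) (Or.inr rfl) (Or.inr rfl) (Or.inr rfl), if_neg]
    · rfl
    · rintro ⟨g0, g1, g2, g3, g4, g5, g6, g7, g8, g9⟩
      obtain ⟨i, j, hi, hj, hij⟩ := cut hG ({0, 1, 2, 3} : Finset (Fin 5)) (u := 0) (v := 4) (by decide) (by decide)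
      have hj2 : j ∈ ({4} : Finset (Fin 5)) := by
        have h : ∀ j : Fin 5, j ∉ ({0, 1, 2, 3} : Finset (Fin 5)) → j ∈ ({4} : Finset (Fin 5)) := by decide
        exact h j hj
      clear hj
      simp only [mem_insert, mem_singleton] at hi hj2
      rcases hi with rfl | rfl | rfl | rfl
      · subst hj2
        exact absurd ((ad_le G _ _ (Or.inl rfl)).mp g3 hij) (by norm_num)
      · subst hj2
        exact absurd ((ad_le G _ _ (Or.inl rfl)).mp g2 hij) (by norm_num)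
      · subst hj2
        exact absurd ((ad_le G _ _ (Or.inl rfl)).mp g1 hij) (by norm_num)
      · subst hj2
        exact absurd ((ad_le G _ _ (Or.inl rfl)).mp g0 hij) (by norm_num)
  have c8 : Nat.beq (sbn (cd5 (ad G 3 4) (ad G 2 4) (ad G 1 4) (ad G 0 4) (ad G 2 3) (ad G 1 3) (ad G 0 3) (ad G 1 2) (ad G 0 2) (ad G 0 1)) (cd5 0 0 0 1 1 1 0 1 0 0)) 1 = false := by
    rw [sb_iff (ad_Bt _ _ _) (ad_Bt _ _ _) (ad_Bt _ _ _) (ad_Bt _ _ _) (ad_Bt _ _ _) (ad_Bt _ _ _) (ad_Bt _ _ _) (ad_Bt _ _ _) (ad_Bt _ _ _) (ad_Bt _ _ _) (Or.inl rfl) (Or.inl rfl) (Or.inl rfl) (Or.inr rfl) (Or.inr rfl) (Or.inr rfl) (Or.inl rfl) (Or.inr rfl) (Or.inl rfl) (Or.inl rfl), if_neg]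
    · rfl
    · rintro ⟨g0, g1, g2, g3, g4, g5, g6, g7, g8, g9⟩
      obtain ⟨i, j, hi, hj, hij⟩ := cut hG ({0, 4} : Finset (Fin 5)) (u := 0) (v := 1) (by decide) (by decide)
      have hj2 : j ∈ ({1, 2, 3} : Finset (Fin 5)) := by
        have h : ∀ j : Fin 5, j ∉ ({0, 4} : Finset (Fin 5)) → j ∈ ({1, 2, 3} : Finset (Fin 5)) := by decide
        exact h j hj
      clear hj
      simp only [mem_insert, mem_singleton] at hi hj2
      rcases hi with rfl | rfl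
      · rcases hj2 with rfl | rfl | rfl
        · exact absurd ((ad_le G _ _ (Or.inl rfl)).mp g9 hij) (by norm_num)
        · exact absurd ((ad_le G _ _ (Or.inl rfl)).mp g8 hij) (by norm_num)
        · exact absurd ((ad_le G _ _ (Or.inl rfl)).mp g6 hij) (by norm_num)
      · rcases hj2 with rfl | rfl | rfl
        · exact absurd ((ad_le G _ _ (Or.inl rfl)).mp g2 hij.symm) (by norm_num)
        · exact absurd ((ad_le G _ _ (Or.inl rfl)).mp g1 hij.symm) (by norm_num)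
        · exact absurd ((ad_le G _ _ (Or.inl rfl)).mp g0 hij.symm) (by norm_num)
  have c9 : Nat.beq (sbn (cd5 (ad G 3 4) (ad G 2 4) (ad G 1 4) (ad G 0 4) (ad G 2 3) (ad G 1 3) (ad G 0 3) (ad G 1 2) (ad G 0 2) (ad G 0 1)) (cd5 0 0 1 1 1 0 0 0 0 1)) 1 = false := by
    rw [sb_iff (ad_Bt _ _ _) (ad_Bt _ _ _) (ad_Bt _ _ _) (ad_Bt _ _ _) (ad_Bt _ _ _) (ad_Bt _ _ _) (ad_Bt _ _ _) (ad_Bt _ _ _) (ad_Bt _ _ _) (ad_Bt _ _ _) (Or.inl rfl) (Or.inl rfl) (Or.inr rfl) (Or.inr rfl) (Or.inr rfl) (Or.inl rfl) (Or.inl rfl) (Or.inl rfl) (Or.inl rfl) (Or.inr rfl), if_neg]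
    · rfl
    · rintro ⟨g0, g1, g2, g3, g4, g5, g6, g7, g8, g9⟩
      obtain ⟨i, j, hi, hj, hij⟩ := cut hG ({0, 1, 4} : Finset (Fin 5)) (u := 0) (v := 2) (by decide) (by decide)
      have hj2 : j ∈ ({2, 3} : Finset (Fin 5)) := by
        have h : ∀ j : Fin 5, j ∉ ({0, 1, 4} : Finset (Fin 5)) → j ∈ ({2, 3} : Finset (Fin 5)) := by decide
        exact h j hj
      clear hj
      simp only [mem_insert, mem_singleton] at hi hj2
      rcases hi with rfl | rfl | rfl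
      · rcases hj2 with rfl | rfl
        · exact absurd ((ad_le G _ _ (Or.inl rfl)).mp g8 hij) (by norm_num)
        · exact absurd ((ad_le G _ _ (Or.inl rfl)).mp g6 hij) (by norm_num)
      · rcases hj2 with rfl | rfl
        · exact absurd ((ad_le G _ _ (Or.inl rfl)).mp g7 hij) (by norm_num)
        · exact absurd ((ad_le G _ _ (Or.inl rfl)).mp g5 hij) (by norm_num)
      · rcases hj2 with rfl | rfl
        · exact absurd ((ad_le G _ _ (Or.inl rfl)).mp g1 hij.symm) (by norm_num)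
        · exact absurd ((ad_le G _ _ (Or.inl rfl)).mp g0 hij.symm) (by norm_num)
  have c10 : Nat.beq (sbn (cd5 (ad G 3 4) (ad G 2 4) (ad G 1 4) (ad G 0 4) (ad G 2 3) (ad G 1 3) (ad G 0 3) (ad G 1 2) (ad G 0 2) (ad G 0 1)) (cd5 0 1 0 1 0 1 0 0 1 0)) 1 = false := by
    rw [sb_iff (ad_Bt _ _ _) (ad_Bt _ _ _) (ad_Bt _ _ _) (ad_Bt _ _ _) (ad_Bt _ _ _) (ad_Bt _ _ _) (ad_Bt _ _ _) (ad_Bt _ _ _) (ad_Bt _ _ _) (ad_Bt _ _ _) (Or.inl rfl) (Or.inr rfl) (Or.inl rfl) (Or.inr rfl) (Or.inl rfl) (Or.inr rfl) (Or.inl rfl) (Or.inl rfl) (Or.inr rfl) (Or.inl rfl), if_neg]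
    · rfl
    · rintro ⟨g0, g1, g2, g3, g4, g5, g6, g7, g8, g9⟩
      obtain ⟨i, j, hi, hj, hij⟩ := cut hG ({0, 2, 4} : Finset (Fin 5)) (u := 0) (v := 1) (by decide) (by decide)
      have hj2 : j ∈ ({1, 3} : Finset (Fin 5)) := by
        have h : ∀ j : Fin 5, j ∉ ({0, 2, 4} : Finset (Fin 5)) → j ∈ ({1, 3} : Finset (Fin 5)) := by decide
        exact h j hj
      clear hj
      simp only [mem_insert, mem_singleton] at hi hj2
      rcases hi with rfl | rfl | rfl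
      · rcases hj2 with rfl | rfl
        · exact absurd ((ad_le G _ _ (Or.inl rfl)).mp g9 hij) (by norm_num)
        · exact absurd ((ad_le G _ _ (Or.inl rfl)).mp g6 hij) (by norm_num)
      · rcases hj2 with rfl | rfl
        · exact absurd ((ad_le G _ _ (Or.inl rfl)).mp g7 hij.symm) (by norm_num)
        · exact absurd ((ad_le G _ _ (Or.inl rfl)).mp g4 hij) (by norm_num)
      · rcases hj2 with rfl | rfl
        · exact absurd ((ad_le G _ _ (Or.inl rfl)).mp g2 hij.symm) (by norm_num)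
        · exact absurd ((ad_le G _ _ (Or.inl rfl)).mp g0 hij.symm) (by norm_num)
  have c11 : Nat.beq (sbn (cd5 (ad G 3 4) (ad G 2 4) (ad G 1 4) (ad G 0 4) (ad G 2 3) (ad G 1 3) (ad G 0 3) (ad G 1 2) (ad G 0 2) (ad G 0 1)) (cd5 0 1 1 1 0 0 0 1 1 1)) 1 = false := by
    rw [sb_iff (ad_Bt _ _ _) (ad_Bt _ _ _) (ad_Bt _ _ _) (ad_Bt _ _ _) (ad_Bt _ _ _) (ad_Bt _ _ _) (ad_Bt _ _ _) (ad_Bt _ _ _) (ad_Bt _ _ _) (ad_Bt _ _ _) (Or.inl rfl) (Or.inr rfl) (Or.inr rfl) (Or.inr rfl) (Or.inl rfl) (Or.inl rfl) (Or.inl rfl) (Or.inr rfl) (Or.inr rfl) (Or.inr rfl), if_neg]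
    · rfl
    · rintro ⟨g0, g1, g2, g3, g4, g5, g6, g7, g8, g9⟩
      obtain ⟨i, j, hi, hj, hij⟩ := cut hG ({0, 1, 2, 4} : Finset (Fin 5)) (u := 0) (v := 3) (by decide) (by decide)
      have hj2 : j ∈ ({3} : Finset (Fin 5)) := by
        have h : ∀ j : Fin 5, j ∉ ({0, 1, 2, 4} : Finset (Fin 5)) → j ∈ ({3} : Finset (Fin 5)) := by decide
        exact h j hj
      clear hj
      simp only [mem_insert, mem_singleton] at hi hj2
      rcases hi with rfl | rfl | rfl | rfl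
      · subst hj2
        exact absurd ((ad_le G _ _ (Or.inl rfl)).mp g6 hij) (by norm_num)
      · subst hj2
        exact absurd ((ad_le G _ _ (Or.inl rfl)).mp g5 hij) (by norm_num)
      · subst hj2
        exact absurd ((ad_le G _ _ (Or.inl rfl)).mp g4 hij) (by norm_num)
      · subst hj2
        exact absurd ((ad_le G _ _ (Or.inl rfl)).mp g0 hij.symm) (by norm_num)
  have c12 : Nat.beq (sbn (cd5 (ad G 3 4) (ad G 2 4) (ad G 1 4) (ad G 0 4) (ad G 2 3) (ad G 1 3) (ad G 0 3) (ad G 1 2) (ad G 0 2) (ad G 0 1)) (cd5 1 0 0 1 0 0 1 1 0 0)) 1 = false := by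
    rw [sb_iff (ad_Bt _ _ _) (ad_Bt _ _ _) (ad_Bt _ _ _) (ad_Bt _ _ _) (ad_Bt _ _ _) (ad_Bt _ _ _) (ad_Bt _ _ _) (ad_Bt _ _ _) (ad_Bt _ _ _) (ad_Bt _ _ _) (Or.inr rfl) (Or.inl rfl) (Or.inl rfl) (Or.inr rfl) (Or.inl rfl) (Or.inl rfl) (Or.inr rfl) (Or.inr rfl) (Or.inl rfl) (Or.inl rfl), if_neg]
    · rfl
    · rintro ⟨g0, g1, g2, g3, g4, g5, g6, g7, g8, g9⟩
      obtain ⟨i, j, hi, hj, hij⟩ := cut hG ({0, 3, 4} : Finset (Fin 5)) (u := 0) (v := 1) (by decide) (by decide)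
      have hj2 : j ∈ ({1, 2} : Finset (Fin 5)) := by
        have h : ∀ j : Fin 5, j ∉ ({0, 3, 4} : Finset (Fin 5)) → j ∈ ({1, 2} : Finset (Fin 5)) := by decide
        exact h j hj
      clear hj
      simp only [mem_insert, mem_singleton] at hi hj2
      rcases hi with rfl | rfl | rfl
      · rcases hj2 with rfl | rfl
        · exact absurd ((ad_le G _ _ (Or.inl rfl)).mp g9 hij) (by norm_num)
        · exact absurd ((ad_le G _ _ (Or.inl rfl)).mp g8 hij) (by norm_num)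
      · rcases hj2 with rfl | rfl
        · exact absurd ((ad_le G _ _ (Or.inl rfl)).mp g5 hij.symm) (by norm_num)
        · exact absurd ((ad_le G _ _ (Or.inl rfl)).mp g4 hij.symm) (by norm_num)
      · rcases hj2 with rfl | rfl
        · exact absurd ((ad_le G _ _ (Or.inl rfl)).mp g2 hij.symm) (by norm_num)
        · exact absurd ((ad_le G _ _ (Or.inl rfl)).mp g1 hij.symm) (by norm_num)
  have c13 : Nat.beq (sbn (cd5 (ad G 3 4) (ad G 2 4) (ad G 1 4) (ad G 0 4) (ad G 2 3) (ad G 1 3) (ad G 0 3) (ad G 1 2) (ad G 0 2) (ad G 0 1)) (cd5 1 0 1 1 0 1 1 0 0 1)) 1 = false := by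
    rw [sb_iff (ad_Bt _ _ _) (ad_Bt _ _ _) (ad_Bt _ _ _) (ad_Bt _ _ _) (ad_Bt _ _ _) (ad_Bt _ _ _) (ad_Bt _ _ _) (ad_Bt _ _ _) (ad_Bt _ _ _) (ad_Bt _ _ _) (Or.inr rfl) (Or.inl rfl) (Or.inr rfl) (Or.inr rfl) (Or.inl rfl) (Or.inr rfl) (Or.inr rfl) (Or.inl rfl) (Or.inl rfl) (Or.inr rfl), if_neg]
    · rfl
    · rintro ⟨g0, g1, g2, g3, g4, g5, g6, g7, g8, g9⟩
      obtain ⟨i, j, hi, hj, hij⟩ := cut hG ({0, 1, 3, 4} : Finset (Fin 5)) (u := 0) (v := 2) (by decide) (by decide)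
      have hj2 : j ∈ ({2} : Finset (Fin 5)) := by
        have h : ∀ j : Fin 5, j ∉ ({0, 1, 3, 4} : Finset (Fin 5)) → j ∈ ({2} : Finset (Fin 5)) := by decide
        exact h j hj
      clear hj
      simp only [mem_insert, mem_singleton] at hi hj2
      rcases hi with rfl | rfl | rfl | rfl
      · subst hj2
        exact absurd ((ad_le G _ _ (Or.inl rfl)).mp g8 hij) (by norm_num)
      · subst hj2
        exact absurd ((ad_le G _ _ (Or.inl rfl)).mp g7 hij) (by norm_num)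
      · subst hj2
        exact absurd ((ad_le G _ _ (Or.inl rfl)).mp g4 hij.symm) (by norm_num)
      · subst hj2
        exact absurd ((ad_le G _ _ (Or.inl rfl)).mp g1 hij.symm) (by norm_num)
  have c14 : Nat.beq (sbn (cd5 (ad G 3 4) (ad G 2 4) (ad G 1 4) (ad G 0 4) (ad G 2 3) (ad G 1 3) (ad G 0 3) (ad G 1 2) (ad G 0 2) (ad G 0 1)) (cd5 1 1 0 1 1 0 1 0 1 0)) 1 = false := by
    rw [sb_iff (ad_Bt _ _ _) (ad_Bt _ _ _) (ad_Bt _ _ _) (ad_Bt _ _ _) (ad_Bt _ _ _) (ad_Bt _ _ _) (ad_Bt _ _ _) (ad_Bt _ _ _) (ad_Bt _ _ _) (ad_Bt _ _ _) (Or.inr rfl) (Or.inr rfl) (Or.inl rfl) (Or.inr rfl) (Or.inr rfl) (Or.inl rfl) (Or.inr rfl) (Or.inl rfl) (Or.inr rfl) (Or.inl rfl), if_neg]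
    · rfl
    · rintro ⟨g0, g1, g2, g3, g4, g5, g6, g7, g8, g9⟩
      obtain ⟨i, j, hi, hj, hij⟩ := cut hG ({0, 2, 3, 4} : Finset (Fin 5)) (u := 0) (v := 1) (by decide) (by decide)
      have hj2 : j ∈ ({1} : Finset (Fin 5)) := by
        have h : ∀ j : Fin 5, j ∉ ({0, 2, 3, 4} : Finset (Fin 5)) → j ∈ ({1} : Finset (Fin 5)) := by decide
        exact h j hj
      clear hj
      simp only [mem_insert, mem_singleton] at hi hj2
      rcases hi with rfl | rfl | rfl | rfl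
      · subst hj2
        exact absurd ((ad_le G _ _ (Or.inl rfl)).mp g9 hij) (by norm_num)
      · subst hj2
        exact absurd ((ad_le G _ _ (Or.inl rfl)).mp g7 hij.symm) (by norm_num)
      · subst hj2
        exact absurd ((ad_le G _ _ (Or.inl rfl)).mp g5 hij.symm) (by norm_num)
      · subst hj2
        exact absurd ((ad_le G _ _ (Or.inl rfl)).mp g2 hij.symm) (by norm_num)
  unfold dis5
  rw [c0, c1, c2, c3, c4, c5, c6, c7, c8, c9, c10, c11, c12, c13, c14]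
  rfl

def isrep5 (r : ℕ) : Bool := (or (Nat.beq r 209) (or (Nat.beq r 212) (or (Nat.beq r 217) (or (Nat.beq r 244) (or (Nat.beq r 252) (or (Nat.beq r 355) (or (Nat.beq r 358) (or (Nat.beq r 363) (or (Nat.beq r 371) (or (Nat.beq r 379) (or (Nat.beq r 402) (or (Nat.beq r 410) (or (Nat.beq r 470) (or (Nat.beq r 478) (or (Nat.beq r 725) (or (Nat.beq r 733) (or (Nat.beq r 757) (or (Nat.beq r 765) (or (Nat.beq r 955) (or (Nat.beq r 991) (Nat.beq r 1023)))))))))))))))))))))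

theorem isrep5_cases {P : ℕ → Prop} {r : ℕ} (h : isrep5 r = true) (h209 : P 209) (h212 : P 212) (h217 : P 217) (h244 : P 244) (h252 : P 252) (h355 : P 355) (h358 : P 358) (h363 : P 363) (h371 : P 371) (h379 : P 379) (h402 : P 402) (h410 : P 410) (h470 : P 470) (h478 : P 478) (h725 : P 725) (h733 : P 733) (h757 : P 757) (h765 : P 765) (h955 : P 955) (h991 : P 991) (h1023 : P 1023) : P r := by
  unfold isrep5 at h
  simp only [Bool.or_eq_true] at h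
  rcases h with h | h | h | h | h | h | h | h | h | h | h | h | h | h | h | h | h | h | h | h | h
  · rw [Nat.eq_of_beq_eq_true h]; exact h209
  · rw [Nat.eq_of_beq_eq_true h]; exact h212
  · rw [Nat.eq_of_beq_eq_true h]; exact h217
  · rw [Nat.eq_of_beq_eq_true h]; exact h244
  · rw [Nat.eq_of_beq_eq_true h]; exact h252
  · rw [Nat.eq_of_beq_eq_true h]; exact h355
  · rw [Nat.eq_of_beq_eq_true h]; exact h358
  · rw [Nat.eq_of_beq_eq_true h]; exact h363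
  · rw [Nat.eq_of_beq_eq_true h]; exact h371
  · rw [Nat.eq_of_beq_eq_true h]; exact h379
  · rw [Nat.eq_of_beq_eq_true h]; exact h402
  · rw [Nat.eq_of_beq_eq_true h]; exact h410
  · rw [Nat.eq_of_beq_eq_true h]; exact h470
  · rw [Nat.eq_of_beq_eq_true h]; exact h478
  · rw [Nat.eq_of_beq_eq_true h]; exact h725
  · rw [Nat.eq_of_beq_eq_true h]; exact h733
  · rw [Nat.eq_of_beq_eq_true h]; exact h757
  · rw [Nat.eq_of_beq_eq_true h]; exact h765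
  · rw [Nat.eq_of_beq_eq_true h]; exact h955
  · rw [Nat.eq_of_beq_eq_true h]; exact h991
  · rw [Nat.eq_of_beq_eq_true h]; exact h1023

theorem rep5 : (B2 fun m34 => B2 fun m24 => B2 fun m14 => B2 fun m04 => B2 fun m23 => B2 fun m13 => B2 fun m03 => B2 fun m12 => B2 fun m02 => B2 fun m01 => or (dis5 m34 m24 m14 m04 m23 m13 m03 m12 m02 m01) (isrep5 (ends 7 m34 m24 m14 m04 m23 m13 m03 m12 m02 m01))) = true := by
  decide +kernel

theorem rep5_of {G : SimpleGraph (Fin 5)} (hG : G.Connected) :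
    isrep5 (ends 7 (ad G 3 4) (ad G 2 4) (ad G 1 4) (ad G 0 4) (ad G 2 3) (ad G 1 3) (ad G 0 3) (ad G 1 2) (ad G 0 2) (ad G 0 1)) = true :=
  or_false_left (B2_true (B2_true (B2_true (B2_true (B2_true (B2_true (B2_true (B2_true (B2_true (B2_true rep5 (ad_Bt G 3 4)) (ad_Bt G 2 4)) (ad_Bt G 1 4)) (ad_Bt G 0 4)) (ad_Bt G 2 3)) (ad_Bt G 1 3)) (ad_Bt G 0 3)) (ad_Bt G 1 2)) (ad_Bt G 0 2)) (ad_Bt G 0 1)) (dis5_false hG)

/-- the code of a graph on 4 vertices -/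
noncomputable def mask4 (G : SimpleGraph (Fin 4)) : ℕ :=
  cd5 0 0 0 0 (ad G 2 3) (ad G 1 3) (ad G 0 3) (ad G 1 2) (ad G 0 2) (ad G 0 1)

theorem pairs4 {G : SimpleGraph (Fin 4)} {P : Fin 4 → Fin 4 → Prop} (hP : ∀ i j, P i j → P j i) :
    (∀ i j, G.Adj i j → P i j) ↔ ((G.Adj 2 3 → P 2 3) ∧ (G.Adj 1 3 → P 1 3) ∧ (G.Adj 0 3 → P 0 3) ∧ (G.Adj 1 2 → P 1 2) ∧ (G.Adj 0 2 → P 0 2) ∧ (G.Adj 0 1 → P 0 1)) := by
  constructor
  · intro h
    exact ⟨h _ _, h _ _, h _ _, h _ _, h _ _, h _ _⟩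
  · rintro ⟨a0, a1, a2, a3, a4, a5⟩ i j h
    fin_cases i <;> fin_cases j
    · exact absurd h (G.loopless.irrefl _)
    · exact a5 h
    · exact a4 h
    · exact a2 h
    · exact hP _ _ (a5 h.symm)
    · exact absurd h (G.loopless.irrefl _)
    · exact a3 h
    · exact a1 h
    · exact hP _ _ (a4 h.symm)
    · exact hP _ _ (a3 h.symm)
    · exact absurd h (G.loopless.irrefl _)
    · exact a0 h
    · exact hP _ _ (a2 h.symm)
    · exact hP _ _ (a1 h.symm)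
    · exact hP _ _ (a0 h.symm)
    · exact absurd h (G.loopless.irrefl _)

/-- the map of the last point, the first four points and the fifth point -/
def glue4 {V : Type} : ((V × (Fin 4 → V)) × V) ≃ (Fin 6 → V) where
  toFun p := fun i => if h : i.val < 4 then p.1.2 ⟨i.val, h⟩ else if i.val < 5 then p.2 else p.1.1
  invFun x := ((x 5, fun i => x i.castSucc.castSucc), x 4)
  left_inv p := by
    refine Prod.ext (Prod.ext rfl ?_) rfl
    funext i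
    have h : (i.castSucc.castSucc : Fin 6).val < 4 := i.isLt
    simp only [dif_pos h]
    rfl
  right_inv x := by
    funext i
    by_cases h : i.val < 4
    · simp only [dif_pos h]
      rfl
    · by_cases h2 : i.val < 5
      · simp only [dif_neg h, if_pos h2]
        congr 1
        exact Fin.ext (by show 4 = i.val; omega)
      · simp only [dif_neg h, if_neg h2]
        congr 1
        exact Fin.ext (by have := i.isLt; show 5 = i.val; omega)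

theorem NL4 {V : Type} [Fintype V] {E : V → V → V → ℕ} (hE : Sy E) (G : SimpleGraph (Fin 4)) :
    NL E (mask4 G) = Fintype.card V * homsL E G := by
  classical
  unfold homsL
  rw [card_filter]
  unfold NL SL
  rw [← (glue4 (V := V)).sum_comp, Fintype.sum_prod_type, mul_sum]
  refine sum_congr rfl fun q _ => ?_
  have key : ∀ u : V, LE (sbn (mask4 G)) E (q.2 0) (q.2 1) (q.2 2) (q.2 3) u q.1 =
      if ∀ i j, G.Adj i j → E q.1 (q.2 i) (q.2 j) = 1 then 1 else 0 := by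
    intro u
    unfold LE mask4
    rw [sb_iff (Or.inl rfl) (Or.inl rfl) (Or.inl rfl) (Or.inl rfl) (ad_Bt _ _ _) (ad_Bt _ _ _) (ad_Bt _ _ _) (ad_Bt _ _ _) (ad_Bt _ _ _) (ad_Bt _ _ _) (hE.b _ _ _) (hE.b _ _ _) (hE.b _ _ _) (hE.b _ _ _) (hE.b _ _ _) (hE.b _ _ _) (hE.b _ _ _) (hE.b _ _ _) (hE.b _ _ _) (hE.b _ _ _)]
    refine if_congr ?_ rfl rfl
    rw [pairs4 (P := fun i j => E q.1 (q.2 i) (q.2 j) = 1) (fun i j h => by rw [hE.h132]; exact h)]
    have e : ∀ a b c : V, E a b c = E c a b := fun a b c => (hE.h312 a b c).symm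
    simp only [ad_le G _ _ (hE.b _ _ _), Nat.zero_le, true_and, e _ _ q.1]
  have h2 : ∀ u : V, LE (sbn (mask4 G)) E (glue4 (q, u) 0) (glue4 (q, u) 1) (glue4 (q, u) 2)
      (glue4 (q, u) 3) (glue4 (q, u) 4) (glue4 (q, u) 5) =
      if ∀ i j, G.Adj i j → E q.1 (q.2 i) (q.2 j) = 1 then 1 else 0 := key
  simp only [h2, sum_const, card_univ, smul_eq_mul]

/-- some cut is empty -/
def dis4 (m23 m13 m03 m12 m02 m01 : ℕ) : Bool :=
  (or (Nat.beq (sbn (cd5 0 0 0 0 m23 m13 m03 m12 m02 m01) (cd5 0 0 0 0 1 1 0 1 0 0)) 1) (or (Nat.beq (sbn (cd5 0 0 0 0 m23 m13 m03 m12 m02 m01) (cd5 0 0 0 0 1 0 0 0 0 1)) 1) (or (Nat.beq (sbn (cd5 0 0 0 0 m23 m13 m03 m12 m02 m01) (cd5 0 0 0 0 0 1 0 0 1 0)) 1) (or (Nat.beq (sbn (cd5 0 0 0 0 m23 m13 m03 m12 m02 m01) (cd5 0 0 0 0 0 0 0 1 1 1)) 1) (or (Nat.beq (sbn (cd5 0 0 0 0 m23 m13 m03 m12 m02 m01) (cd5 0 0 0 0 0 0 1 1 0 0)) 1) (or (Nat.beq (sbn (cd5 0 0 0 0 m23 m13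 m03 m12 m02 m01) (cd5 0 0 0 0 0 1 1 0 0 1)) 1) (Nat.beq (sbn (cd5 0 0 0 0 m23 m13 m03 m12 m02 m01) (cd5 0 0 0 0 1 0 1 0 1 0)) 1)))))))

theorem dis4_false {G : SimpleGraph (Fin 4)} (hG : G.Connected) :
    dis4 (ad G 2 3) (ad G 1 3) (ad G 0 3) (ad G 1 2) (ad G 0 2) (ad G 0 1) = false := by
  have c0 : Nat.beq (sbn (cd5 0 0 0 0 (ad G 2 3) (ad G 1 3) (ad G 0 3) (ad G 1 2) (ad G 0 2) (ad G 0 1)) (cd5 0 0 0 0 1 1 0 1 0 0)) 1 = false := by
    rw [sb_iff (Or.inl rfl) (Or.inl rfl) (Or.inl rfl) (Or.inl rfl) (ad_Bt _ _ _) (ad_Bt _ _ _) (ad_Bt _ _ _) (ad_Bt _ _ _) (ad_Bt _ _ _) (ad_Bt _ _ _) (Or.inl rfl) (Or.inl rfl) (Or.inl rfl) (Or.inl rfl) (Or.inr rfl) (Or.inr rfl) (Or.inl rfl) (Or.inr rfl) (Or.inl rfl) (Or.inl rfl), if_neg]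
    · rfl
    · rintro ⟨g0, g1, g2, g3, g4, g5, g6, g7, g8, g9⟩
      obtain ⟨i, j, hi, hj, hij⟩ := cut hG ({0} : Finset (Fin 4)) (u := 0) (v := 1) (by decide) (by decide)
      have hj2 : j ∈ ({1, 2, 3} : Finset (Fin 4)) := by
        have h : ∀ j : Fin 4, j ∉ ({0} : Finset (Fin 4)) → j ∈ ({1, 2, 3} : Finset (Fin 4)) := by decide
        exact h j hj
      clear hj
      simp only [mem_insert, mem_singleton] at hi hj2
      subst hi
      rcases hj2 with rfl | rfl | rfl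
      · exact absurd ((ad_le G _ _ (Or.inl rfl)).mp g9 hij) (by norm_num)
      · exact absurd ((ad_le G _ _ (Or.inl rfl)).mp g8 hij) (by norm_num)
      · exact absurd ((ad_le G _ _ (Or.inl rfl)).mp g6 hij) (by norm_num)
  have c1 : Nat.beq (sbn (cd5 0 0 0 0 (ad G 2 3) (ad G 1 3) (ad G 0 3) (ad G 1 2) (ad G 0 2) (ad G 0 1)) (cd5 0 0 0 0 1 0 0 0 0 1)) 1 = false := by
    rw [sb_iff (Or.inl rfl) (Or.inl rfl) (Or.inl rfl) (Or.inl rfl) (ad_Bt _ _ _) (ad_Bt _ _ _) (ad_Bt _ _ _) (ad_Bt _ _ _) (ad_Bt _ _ _) (ad_Bt _ _ _) (Or.inl rfl) (Or.inl rfl) (Or.inl rfl) (Or.inl rfl) (Or.inr rfl) (Or.inl rfl) (Or.inl rfl) (Or.inl rfl) (Or.inl rfl) (Or.inr rfl), if_neg]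
    · rfl
    · rintro ⟨g0, g1, g2, g3, g4, g5, g6, g7, g8, g9⟩
      obtain ⟨i, j, hi, hj, hij⟩ := cut hG ({0, 1} : Finset (Fin 4)) (u := 0) (v := 2) (by decide) (by decide)
      have hj2 : j ∈ ({2, 3} : Finset (Fin 4)) := by
        have h : ∀ j : Fin 4, j ∉ ({0, 1} : Finset (Fin 4)) → j ∈ ({2, 3} : Finset (Fin 4)) := by decide
        exact h j hj
      clear hj
      simp only [mem_insert, mem_singleton] at hi hj2
      rcases hi with rfl | rfl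
      · rcases hj2 with rfl | rfl
        · exact absurd ((ad_le G _ _ (Or.inl rfl)).mp g8 hij) (by norm_num)
        · exact absurd ((ad_le G _ _ (Or.inl rfl)).mp g6 hij) (by norm_num)
      · rcases hj2 with rfl | rfl
        · exact absurd ((ad_le G _ _ (Or.inl rfl)).mp g7 hij) (by norm_num)
        · exact absurd ((ad_le G _ _ (Or.inl rfl)).mp g5 hij) (by norm_num)
  have c2 : Nat.beq (sbn (cd5 0 0 0 0 (ad G 2 3) (ad G 1 3) (ad G 0 3) (ad G 1 2) (ad G 0 2) (ad G 0 1)) (cd5 0 0 0 0 0 1 0 0 1 0)) 1 = false := by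
    rw [sb_iff (Or.inl rfl) (Or.inl rfl) (Or.inl rfl) (Or.inl rfl) (ad_Bt _ _ _) (ad_Bt _ _ _) (ad_Bt _ _ _) (ad_Bt _ _ _) (ad_Bt _ _ _) (ad_Bt _ _ _) (Or.inl rfl) (Or.inl rfl) (Or.inl rfl) (Or.inl rfl) (Or.inl rfl) (Or.inr rfl) (Or.inl rfl) (Or.inl rfl) (Or.inr rfl) (Or.inl rfl), if_neg]
    · rfl
    · rintro ⟨g0, g1, g2, g3, g4, g5, g6, g7, g8, g9⟩
      obtain ⟨i, j, hi, hj, hij⟩ := cut hG ({0, 2} : Finset (Fin 4)) (u := 0) (v := 1) (by decide) (by decide)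
      have hj2 : j ∈ ({1, 3} : Finset (Fin 4)) := by
        have h : ∀ j : Fin 4, j ∉ ({0, 2} : Finset (Fin 4)) → j ∈ ({1, 3} : Finset (Fin 4)) := by decide
        exact h j hj
      clear hj
      simp only [mem_insert, mem_singleton] at hi hj2
      rcases hi with rfl | rfl
      · rcases hj2 with rfl | rfl
        · exact absurd ((ad_le G _ _ (Or.inl rfl)).mp g9 hij) (by norm_num)
        · exact absurd ((ad_le G _ _ (Or.inl rfl)).mp g6 hij) (by norm_num)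
      · rcases hj2 with rfl | rfl
        · exact absurd ((ad_le G _ _ (Or.inl rfl)).mp g7 hij.symm) (by norm_num)
        · exact absurd ((ad_le G _ _ (Or.inl rfl)).mp g4 hij) (by norm_num)
  have c3 : Nat.beq (sbn (cd5 0 0 0 0 (ad G 2 3) (ad G 1 3) (ad G 0 3) (ad G 1 2) (ad G 0 2) (ad G 0 1)) (cd5 0 0 0 0 0 0 0 1 1 1)) 1 = false := by
    rw [sb_iff (Or.inl rfl) (Or.inl rfl) (Or.inl rfl) (Or.inl rfl) (ad_Bt _ _ _) (ad_Bt _ _ _) (ad_Bt _ _ _) (ad_Bt _ _ _) (ad_Bt _ _ _) (ad_Bt _ _ _) (Or.inl rfl) (Or.inl rfl) (Or.inl rfl) (Or.inl rfl) (Or.inl rfl) (Or.inl rfl) (Or.inl rfl) (Or.inr rfl) (Or.inr rfl) (Or.inr rfl), if_neg]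
    · rfl
    · rintro ⟨g0, g1, g2, g3, g4, g5, g6, g7, g8, g9⟩
      obtain ⟨i, j, hi, hj, hij⟩ := cut hG ({0, 1, 2} : Finset (Fin 4)) (u := 0) (v := 3) (by decide) (by decide)
      have hj2 : j ∈ ({3} : Finset (Fin 4)) := by
        have h : ∀ j : Fin 4, j ∉ ({0, 1, 2} : Finset (Fin 4)) → j ∈ ({3} : Finset (Fin 4)) := by decide
        exact h j hj
      clear hj
      simp only [mem_insert, mem_singleton] at hi hj2
      rcases hi with rfl | rfl | rfl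
      · subst hj2
        exact absurd ((ad_le G _ _ (Or.inl rfl)).mp g6 hij) (by norm_num)
      · subst hj2
        exact absurd ((ad_le G _ _ (Or.inl rfl)).mp g5 hij) (by norm_num)
      · subst hj2
        exact absurd ((ad_le G _ _ (Or.inl rfl)).mp g4 hij) (by norm_num)
  have c4 : Nat.beq (sbn (cd5 0 0 0 0 (ad G 2 3) (ad G 1 3) (ad G 0 3) (ad G 1 2) (ad G 0 2) (ad G 0 1)) (cd5 0 0 0 0 0 0 1 1 0 0)) 1 = false := by
    rw [sb_iff (Or.inl rfl) (Or.inl rfl) (Or.inl rfl) (Or.inl rfl) (ad_Bt _ _ _) (ad_Bt _ _ _) (ad_Bt _ _ _) (ad_Bt _ _ _) (ad_Bt _ _ _) (ad_Bt _ _ _) (Or.inl rfl) (Or.inl rfl) (Or.inl rfl) (Or.inl rfl) (Or.inl rfl) (Or.inl rfl) (Or.inr rfl) (Or.inr rfl) (Or.inl rfl) (Or.inl rfl), if_neg]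
    · rfl
    · rintro ⟨g0, g1, g2, g3, g4, g5, g6, g7, g8, g9⟩
      obtain ⟨i, j, hi, hj, hij⟩ := cut hG ({0, 3} : Finset (Fin 4)) (u := 0) (v := 1) (by decide) (by decide)
      have hj2 : j ∈ ({1, 2} : Finset (Fin 4)) := by
        have h : ∀ j : Fin 4, j ∉ ({0, 3} : Finset (Fin 4)) → j ∈ ({1, 2} : Finset (Fin 4)) := by decide
        exact h j hj
      clear hj
      simp only [mem_insert, mem_singleton] at hi hj2
      rcases hi with rfl | rfl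
      · rcases hj2 with rfl | rfl
        · exact absurd ((ad_le G _ _ (Or.inl rfl)).mp g9 hij) (by norm_num)
        · exact absurd ((ad_le G _ _ (Or.inl rfl)).mp g8 hij) (by norm_num)
      · rcases hj2 with rfl | rfl
        · exact absurd ((ad_le G _ _ (Or.inl rfl)).mp g5 hij.symm) (by norm_num)
        · exact absurd ((ad_le G _ _ (Or.inl rfl)).mp g4 hij.symm) (by norm_num)
  have c5 : Nat.beq (sbn (cd5 0 0 0 0 (ad G 2 3) (ad G 1 3) (ad G 0 3) (ad G 1 2) (ad G 0 2) (ad G 0 1)) (cd5 0 0 0 0 0 1 1 0 0 1)) 1 = false := by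
    rw [sb_iff (Or.inl rfl) (Or.inl rfl) (Or.inl rfl) (Or.inl rfl) (ad_Bt _ _ _) (ad_Bt _ _ _) (ad_Bt _ _ _) (ad_Bt _ _ _) (ad_Bt _ _ _) (ad_Bt _ _ _) (Or.inl rfl) (Or.inl rfl) (Or.inl rfl) (Or.inl rfl) (Or.inl rfl) (Or.inr rfl) (Or.inr rfl) (Or.inl rfl) (Or.inl rfl) (Or.inr rfl), if_neg]
    · rfl
    · rintro ⟨g0, g1, g2, g3, g4, g5, g6, g7, g8, g9⟩
      obtain ⟨i, j, hi, hj, hij⟩ := cut hG ({0, 1, 3} : Finset (Fin 4)) (u := 0) (v := 2) (by decide) (by decide)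
      have hj2 : j ∈ ({2} : Finset (Fin 4)) := by
        have h : ∀ j : Fin 4, j ∉ ({0, 1, 3} : Finset (Fin 4)) → j ∈ ({2} : Finset (Fin 4)) := by decide
        exact h j hj
      clear hj
      simp only [mem_insert, mem_singleton] at hi hj2
      rcases hi with rfl | rfl | rfl
      · subst hj2
        exact absurd ((ad_le G _ _ (Or.inl rfl)).mp g8 hij) (by norm_num)
      · subst hj2
        exact absurd ((ad_le G _ _ (Or.inl rfl)).mp g7 hij) (by norm_num)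
      · subst hj2
        exact absurd ((ad_le G _ _ (Or.inl rfl)).mp g4 hij.symm) (by norm_num)
  have c6 : Nat.beq (sbn (cd5 0 0 0 0 (ad G 2 3) (ad G 1 3) (ad G 0 3) (ad G 1 2) (ad G 0 2) (ad G 0 1)) (cd5 0 0 0 0 1 0 1 0 1 0)) 1 = false := by
    rw [sb_iff (Or.inl rfl) (Or.inl rfl) (Or.inl rfl) (Or.inl rfl) (ad_Bt _ _ _) (ad_Bt _ _ _) (ad_Bt _ _ _) (ad_Bt _ _ _) (ad_Bt _ _ _) (ad_Bt _ _ _) (Or.inl rfl) (Or.inl rfl) (Or.inl rfl) (Or.inl rfl) (Or.inr rfl) (Or.inl rfl) (Or.inr rfl) (Or.inl rfl) (Or.inr rfl) (Or.inl rfl), if_neg]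
    · rfl
    · rintro ⟨g0, g1, g2, g3, g4, g5, g6, g7, g8, g9⟩
      obtain ⟨i, j, hi, hj, hij⟩ := cut hG ({0, 2, 3} : Finset (Fin 4)) (u := 0) (v := 1) (by decide) (by decide)
      have hj2 : j ∈ ({1} : Finset (Fin 4)) := by
        have h : ∀ j : Fin 4, j ∉ ({0, 2, 3} : Finset (Fin 4)) → j ∈ ({1} : Finset (Fin 4)) := by decide
        exact h j hj
      clear hj
      simp only [mem_insert, mem_singleton] at hi hj2
      rcases hi with rfl | rfl | rfl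
      · subst hj2
        exact absurd ((ad_le G _ _ (Or.inl rfl)).mp g9 hij) (by norm_num)
      · subst hj2
        exact absurd ((ad_le G _ _ (Or.inl rfl)).mp g7 hij.symm) (by norm_num)
      · subst hj2
        exact absurd ((ad_le G _ _ (Or.inl rfl)).mp g5 hij.symm) (by norm_num)
  unfold dis4
  rw [c0, c1, c2, c3, c4, c5, c6]
  rfl

def isrep4 (r : ℕ) : Bool := (or (Nat.beq r 76) (or (Nat.beq r 81) (or (Nat.beq r 89) (or (Nat.beq r 553) (or (Nat.beq r 589) (Nat.beq r 621))))))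

theorem isrep4_cases {P : ℕ → Prop} {r : ℕ} (h : isrep4 r = true) (h76 : P 76) (h81 : P 81) (h89 : P 89) (h553 : P 553) (h589 : P 589) (h621 : P 621) : P r := by
  unfold isrep4 at h
  simp only [Bool.or_eq_true] at h
  rcases h with h | h | h | h | h | h
  · rw [Nat.eq_of_beq_eq_true h]; exact h76
  · rw [Nat.eq_of_beq_eq_true h]; exact h81
  · rw [Nat.eq_of_beq_eq_true h]; exact h89
  · rw [Nat.eq_of_beq_eq_true h]; exact h553
  · rw [Nat.eq_of_beq_eq_true h]; exact h589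
  · rw [Nat.eq_of_beq_eq_true h]; exact h621

theorem rep4 : (B2 fun m23 => B2 fun m13 => B2 fun m03 => B2 fun m12 => B2 fun m02 => B2 fun m01 => or (dis4 m23 m13 m03 m12 m02 m01) (isrep4 (ends 7 0 0 0 0 m23 m13 m03 m12 m02 m01))) = true := by
  decide +kernel

theorem rep4_of {G : SimpleGraph (Fin 4)} (hG : G.Connected) :
    isrep4 (ends 7 0 0 0 0 (ad G 2 3) (ad G 1 3) (ad G 0 3) (ad G 1 2) (ad G 0 2) (ad G 0 1)) = true :=
  or_false_left (B2_true (B2_true (B2_true (B2_true (B2_true (B2_true rep4 (ad_Bt G 2 3)) (ad_Bt G 1 3)) (ad_Bt G 0 3)) (ad_Bt G 1 2)) (ad_Bt G 0 2)) (ad_Bt G 0 1)) (dis4_false hG)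

end Pool.Agent.U991.L6
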