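import Pool.Agent.U991.F5.Base

/-! A fast check of sums of squares: the rows of the table are compared as packed numbers. -/

set_option autoImplicit false
set_option maxRecDepth 100000
set_option maxHeartbeats 4000000
open Finset

namespace Pool.Agent.U991.L6
open Pool.Agent.H122R2.N6

/-- a packed column -/
def pcol (W : ℕ) (l : ℕ → ℕ → ℕ) (k : ℕ) : ℕ :=
  nsum 64 fun j => Nat.mul (l j k) (Nat.pow 2 (Nat.mul W j))

def pone (W : ℕ) : ℕ := nsum 64 fun j => Nat.pow 2 (Nat.mul W j)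

def psl (K : ℕ) (w : ℕ → ℕ) (l : ℕ → ℕ → ℕ) (i : ℕ) : ℕ := nsum K fun k => Nat.mul (w k) (l i k)

def pslp (W K : ℕ) (w : ℕ → ℕ) (l : ℕ → ℕ → ℕ) : ℕ := nsum K fun k => Nat.mul (w k) (pcol W l k)

/-- the check of one row -/
def prow (W K OFF SH : ℕ) (w : ℕ → ℕ) (l t : ℕ → ℕ → ℕ) (i : ℕ) : Bool :=
  Nat.beq (Nat.add (nsum K fun k => Nat.mul (Nat.mul (w k) (l i k)) (pcol W l k))
        (Nat.mul (Nat.add (Nat.mul (Nat.mul OFF OFF) (nsum K w)) SH) (pone W)))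
      (Nat.add (nsum 64 fun j => Nat.mul (t i j) (Nat.pow 2 (Nat.mul W j)))
        (Nat.mul OFF (Nat.add (Nat.mul (psl K w l i) (pone W)) (pslp W K w l))))

theorem dig_unique (B : ℕ) (n : ℕ) : ∀ a b : ℕ → ℕ, (∀ j < n, a j < B) → (∀ j < n, b j < B) →
    ∑ j ∈ range n, a j * B ^ j = ∑ j ∈ range n, b j * B ^ j → ∀ j < n, a j = b j := by
  induction n with
  | zero => intro a b _ _ _ j hj; omega
  | succ n ih =>
    intro a b ha hb h
    rw [sum_range_succ', sum_range_succ'] at h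
    have e : ∀ c : ℕ → ℕ, ∑ j ∈ range n, c (j + 1) * B ^ (j + 1) = B * ∑ j ∈ range n, c (j + 1) * B ^ j := by
      intro c
      rw [mul_sum]
      exact sum_congr rfl fun j _ => by ring
    rw [e, e, pow_zero, mul_one, mul_one] at h
    have h0 : a 0 = b 0 := by
      have h1 := congrArg (· % B) h
      simp only [Nat.mul_add_mod, Nat.mod_eq_of_lt (ha 0 (Nat.succ_pos n)),
        Nat.mod_eq_of_lt (hb 0 (Nat.succ_pos n))] at h1
      exact h1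
    have hB : 0 < B := lt_of_le_of_lt (Nat.zero_le _) (ha 0 (Nat.succ_pos n))
    have h2 : ∑ j ∈ range n, a (j + 1) * B ^ j = ∑ j ∈ range n, b (j + 1) * B ^ j := by
      rw [h0] at h
      exact Nat.eq_of_mul_eq_mul_left hB (Nat.add_right_cancel h)
    intro j hj
    rcases j with _ | j
    · exact h0
    · exact ih (fun j => a (j + 1)) (fun j => b (j + 1)) (fun j hj => ha _ (by omega))
        (fun j hj => hb _ (by omega)) h2 j (by omega)

theorem pack_eq (n B C O S R : ℕ) (A D L : ℕ → ℕ) (hR : R = ∑ j ∈ range n, D j * B ^ j)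
    (h : ∑ j ∈ range n, A j * B ^ j + C * ∑ j ∈ range n, B ^ j =
      R + O * (S * ∑ j ∈ range n, B ^ j + ∑ j ∈ range n, L j * B ^ j)) :
    ∑ j ∈ range n, (A j + C) * B ^ j = ∑ j ∈ range n, (D j + O * (S + L j)) * B ^ j := by
  have h1 : ∑ j ∈ range n, (A j + C) * B ^ j =
      ∑ j ∈ range n, A j * B ^ j + C * ∑ j ∈ range n, B ^ j := by
    rw [mul_sum, ← sum_add_distrib]
    exact sum_congr rfl fun j _ => by ring
  have h2 : ∑ j ∈ range n, (D j + O * (S + L j)) * B ^ j =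
      ∑ j ∈ range n, D j * B ^ j + O * (S * ∑ j ∈ range n, B ^ j + ∑ j ∈ range n, L j * B ^ j) := by
    rw [mul_sum, ← sum_add_distrib, mul_sum, ← sum_add_distrib]
    exact sum_congr rfl fun j _ => by ring
  rw [h1, h2, h, hR]

theorem swap1 (n K B : ℕ) (w u : ℕ → ℕ) (l : ℕ → ℕ → ℕ) :
    ∑ k ∈ range K, w k * u k * ∑ j ∈ range n, l j k * B ^ j =
      ∑ j ∈ range n, (∑ k ∈ range K, w k * (u k * l j k)) * B ^ j := by
  simp only [mul_sum, sum_mul]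
  rw [sum_comm]
  exact sum_congr rfl fun j _ => sum_congr rfl fun k _ => by ring

theorem swap2 (n K B : ℕ) (w : ℕ → ℕ) (l : ℕ → ℕ → ℕ) :
    ∑ k ∈ range K, w k * ∑ j ∈ range n, l j k * B ^ j =
      ∑ j ∈ range n, (∑ k ∈ range K, w k * l j k) * B ^ j := by
  simp only [mul_sum, sum_mul]
  rw [sum_comm]
  exact sum_congr rfl fun j _ => sum_congr rfl fun k _ => by ring

theorem psd_core (n : ℕ) {W K OFF SH CB WB EB : ℕ} {w : ℕ → ℕ} {l : ℕ → ℕ → ℕ} {t : ℕ → ℕ} {i : ℕ}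
    (h1 : ∑ k ∈ range K, w k * l i k * ∑ j ∈ range n, l j k * (2 ^ W) ^ j +
      (OFF * OFF * ∑ k ∈ range K, w k + SH) * ∑ j ∈ range n, (2 ^ W) ^ j =
      ∑ j ∈ range n, t j * (2 ^ W) ^ j + OFF * ((∑ k ∈ range K, w k * l i k) * ∑ j ∈ range n, (2 ^ W) ^ j +
        ∑ k ∈ range K, w k * ∑ j ∈ range n, l j k * (2 ^ W) ^ j))
    (h2 : ∀ j, t j < 2 ^ CB)
    (hw : ∀ k, w k < 2 ^ WB) (hl : ∀ i k, l i k < 2 ^ EB)
    (hb1 : K * (2 ^ WB * (2 ^ EB * 2 ^ EB)) + (OFF * OFF * (K * 2 ^ WB) + SH) < 2 ^ W)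
    (hb2 : 2 ^ CB + OFF * (K * (2 ^ WB * 2 ^ EB) + K * (2 ^ WB * 2 ^ EB)) ≤ 2 ^ W)
    {j : ℕ} (hj : j < n) :
    ∑ k ∈ range K, w k * (l i k * l j k) + (OFF * OFF * ∑ k ∈ range K, w k + SH) =
      t j + OFF * (∑ k ∈ range K, w k * l i k + ∑ k ∈ range K, w k * l j k) := by
  have hS : ∀ i, ∑ k ∈ range K, w k * l i k ≤ K * (2 ^ WB * 2 ^ EB) := by
    intro i
    calc _ ≤ ∑ k ∈ range K, 2 ^ WB * 2 ^ EB :=
          sum_le_sum fun k _ => Nat.mul_le_mul (hw k).le (hl i k).le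
      _ = _ := by rw [sum_const, card_range, smul_eq_mul]
  have hS0 : ∑ k ∈ range K, w k ≤ K * 2 ^ WB := by
    calc _ ≤ ∑ k ∈ range K, 2 ^ WB := sum_le_sum fun k _ => (hw k).le
      _ = _ := by rw [sum_const, card_range, smul_eq_mul]
  have hS2 : ∀ j, ∑ k ∈ range K, w k * (l i k * l j k) ≤ K * (2 ^ WB * (2 ^ EB * 2 ^ EB)) := by
    intro j
    calc _ ≤ ∑ k ∈ range K, 2 ^ WB * (2 ^ EB * 2 ^ EB) :=
          sum_le_sum fun k _ => Nat.mul_le_mul (hw k).le (Nat.mul_le_mul (hl i k).le (hl j k).le)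
      _ = _ := by rw [sum_const, card_range, smul_eq_mul]
  rw [swap1, swap2] at h1
  have h3 := pack_eq n (2 ^ W) _ OFF _ _ _ t _ rfl h1
  refine dig_unique (2 ^ W) n _ _ ?_ ?_ h3 j hj
  · intro j _
    refine lt_of_le_of_lt ?_ hb1
    exact Nat.add_le_add (hS2 j) (Nat.add_le_add_right (Nat.mul_le_mul_left _ hS0) _)
  · intro j hj
    refine lt_of_lt_of_le ?_ hb2
    exact Nat.add_lt_add_of_lt_of_le (h2 j) (Nat.mul_le_mul_left _ (Nat.add_le_add (hS i) (hS j)))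

theorem psd_ok {W K OFF SH CB WB EB : ℕ} {w : ℕ → ℕ} {l t : ℕ → ℕ → ℕ} {i : ℕ}
    (hc : prow W K OFF SH w l t i = true)
    (ht : ∀ j, t i j < 2 ^ CB)
    (hw : ∀ k, w k < 2 ^ WB) (hl : ∀ i k, l i k < 2 ^ EB)
    (hb1 : K * (2 ^ WB * (2 ^ EB * 2 ^ EB)) + (OFF * OFF * (K * 2 ^ WB) + SH) < 2 ^ W)
    (hb2 : 2 ^ CB + OFF * (K * (2 ^ WB * 2 ^ EB) + K * (2 ^ WB * 2 ^ EB)) ≤ 2 ^ W)
    {j : ℕ} (hj : j < 64) :
    ∑ k ∈ range K, w k * (l i k * l j k) + (OFF * OFF * ∑ k ∈ range K, w k + SH) =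
      t i j + OFF * (∑ k ∈ range K, w k * l i k + ∑ k ∈ range K, w k * l j k) := by
  unfold prow at hc
  have h1 := Nat.eq_of_beq_eq_true hc
  unfold psl pslp pcol pone at h1
  simp only [nsum_eq, Nat.add_eq, Nat.mul_eq, Nat.pow_eq, pow_mul] at h1
  generalize (64 : ℕ) = n at h1 hj
  exact psd_core n h1 ht hw hl hb1 hb2 hj

end Pool.Agent.U991.L6
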