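import Pool.Agent.U991.L6.Six
import Pool.Agent.U991.L6.Psd
import Pool.Agent.U991.F5.Hom

/-! Functions of the links of the vertices, and six-vertex certificates for them. -/

set_option autoImplicit false
set_option maxRecDepth 100000
set_option maxHeartbeats 4000000
open Finset

namespace Pool.Agent.U991.L6
open Pool.Agent.H122R2.N6 Pool.Agent.Y580.FL Pool.Agent.R85.GT Pool.Agent.Y850.FA
open Pool.Agent.H37R3.K5 (tg5)

/-- the right side: a function of the six links and a bonus for 14 edges -/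
def ZL (tab : ℕ → ℕ) (G C P : ℕ) (b012 b013 b023 b123 b014 b024 b124 b034 b134 b234 b015 b025 b125 b035 b135 b235 b045 b145 b245 b345 : ℕ) : ℕ :=
  Nat.add (Nat.sub C (Nat.mul G ((Nat.add (tab (cd5 b345 b245 b145 b045 b235 b135 b035 b125 b025 b015)) (Nat.add (tab (cd5 b345 b245 b145 b045 b234 b134 b034 b124 b024 b014)) (Nat.add (tab (cd5 b345 b235 b135 b035 b234 b134 b034 b123 b023 b013)) (Nat.add (tab (cd5 b245 b235 b125 b025 b234 b124 b024 b123 b023 b012)) (Nat.add (tab (cd5 b145 b135 b125 b015 b134 b124 b014 b123 b013 b012)) (tab (cd5 b045 b035 b025 b015 b034 b024 b014 b023 b013 b012))))))))))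
    (cond (Nat.beq (cnt b012 b013 b023 b123 b014 b024 b124 b034 b134 b234 b015 b025 b125 b035 b135 b235 b045 b145 b245 b345) 14) P 0)

/-- the value of the table at the link of the last point in the other five points -/
def LE (tab : ℕ → ℕ) {V : Type} (E : V → V → V → ℕ) (a b c d e f : V) : ℕ :=
  tab (cd5 (E d e f) (E c e f) (E b e f) (E a e f) (E c d f) (E b d f) (E a d f) (E b c f) (E a c f) (E a b f))

/-- the sum over the six choices of the last point -/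
def S6L (tab : ℕ → ℕ) {V : Type} (E : V → V → V → ℕ) (a b c d e f : V) : ℕ :=
  LE tab E a b c d e f + (LE tab E a b c d f e + (LE tab E a b c e f d + (LE tab E a b d e f c +
    (LE tab E a c d e f b + LE tab E b c d e f a))))

theorem inv_bits {tab : ℕ → ℕ} (hi : invk tab = true) {b012 b013 b023 b123 b014 b024 b124 b034 b134 b234 : ℕ}
    (h0 : Bt b012) (h1 : Bt b013) (h2 : Bt b023) (h3 : Bt b123) (h4 : Bt b014) (h5 : Bt b024)
    (h6 : Bt b124) (h7 : Bt b034) (h8 : Bt b134) (h9 : Bt b234) :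
    (tab (cd5 b012 b013 b123 b023 b014 b124 b024 b134 b034 b234) = tab (cd5 b012 b013 b023 b123 b014 b024 b124 b034 b134 b234)) ∧
    (tab (cd5 b012 b023 b013 b123 b024 b014 b124 b034 b234 b134) = tab (cd5 b012 b013 b023 b123 b014 b024 b124 b034 b134 b234)) ∧
    (tab (cd5 b013 b012 b023 b123 b014 b034 b134 b024 b124 b234) = tab (cd5 b012 b013 b023 b123 b014 b024 b124 b034 b134 b234)) ∧
    (tab (cd5 b012 b014 b024 b124 b013 b023 b123 b034 b134 b234) = tab (cd5 b012 b013 b023 b123 b014 b024 b124 b034 b134 b234)) := by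
  have h := (B2_true (B2_true (B2_true (B2_true (B2_true (B2_true (B2_true (B2_true (B2_true (B2_true hi h0) h1) h2) h3) h4) h5) h6) h7) h8) h9)
  simp only [Bool.and_eq_true] at h
  exact ⟨Nat.eq_of_beq_eq_true h.1, Nat.eq_of_beq_eq_true h.2.1, Nat.eq_of_beq_eq_true h.2.2.1,
    Nat.eq_of_beq_eq_true h.2.2.2⟩

section
variable {V : Type} {E : V → V → V → ℕ} {tab : ℕ → ℕ}

theorem LE_s0 (hE : Sy E) (hi : invk tab = true) (a b c d e f : V) :
    LE tab E b a c d e f = LE tab E a b c d e f := by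
  unfold LE
  rw [hE.h213 a b f]
  exact (inv_bits hi (hE.b _ _ _) (hE.b _ _ _) (hE.b _ _ _) (hE.b _ _ _) (hE.b _ _ _) (hE.b _ _ _) (hE.b _ _ _) (hE.b _ _ _) (hE.b _ _ _) (hE.b _ _ _)).1

theorem LE_s1 (hE : Sy E) (hi : invk tab = true) (a b c d e f : V) :
    LE tab E a c b d e f = LE tab E a b c d e f := by
  unfold LE
  rw [hE.h213 b c f]
  exact (inv_bits hi (hE.b _ _ _) (hE.b _ _ _) (hE.b _ _ _) (hE.b _ _ _) (hE.b _ _ _) (hE.b _ _ _) (hE.b _ _ _) (hE.b _ _ _) (hE.b _ _ _) (hE.b _ _ _)).2.1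

theorem LE_s2 (hE : Sy E) (hi : invk tab = true) (a b c d e f : V) :
    LE tab E a b d c e f = LE tab E a b c d e f := by
  unfold LE
  rw [hE.h213 c d f]
  exact (inv_bits hi (hE.b _ _ _) (hE.b _ _ _) (hE.b _ _ _) (hE.b _ _ _) (hE.b _ _ _) (hE.b _ _ _) (hE.b _ _ _) (hE.b _ _ _) (hE.b _ _ _) (hE.b _ _ _)).2.2.1

theorem LE_s3 (hE : Sy E) (hi : invk tab = true) (a b c d e f : V) :
    LE tab E a b c e d f = LE tab E a b c d e f := by
  unfold LE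
  rw [hE.h213 d e f]
  exact (inv_bits hi (hE.b _ _ _) (hE.b _ _ _) (hE.b _ _ _) (hE.b _ _ _) (hE.b _ _ _) (hE.b _ _ _) (hE.b _ _ _) (hE.b _ _ _) (hE.b _ _ _) (hE.b _ _ _)).2.2.2

theorem S6L_s0 (hE : Sy E) (hi : invk tab = true) (a b c d e f : V) :
    S6L tab E b a c d e f = S6L tab E a b c d e f := by
  unfold S6L
  rw [LE_s0 hE hi a b c d e f, LE_s0 hE hi a b c d f e, LE_s0 hE hi a b c e f d, LE_s0 hE hi a b d e f c,
    add_comm (LE tab E b c d e f a)]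

theorem S6L_s1 (hE : Sy E) (hi : invk tab = true) (a b c d e f : V) :
    S6L tab E a c b d e f = S6L tab E a b c d e f := by
  unfold S6L
  rw [LE_s1 hE hi a b c d e f, LE_s1 hE hi a b c d f e, LE_s1 hE hi a b c e f d, LE_s0 hE hi b c d e f a,
    add_left_comm (LE tab E a c d e f b)]

theorem S6L_s2 (hE : Sy E) (hi : invk tab = true) (a b c d e f : V) :
    S6L tab E a b d c e f = S6L tab E a b c d e f := by
  unfold S6L
  rw [LE_s2 hE hi a b c d e f, LE_s2 hE hi a b c d f e, LE_s1 hE hi a c d e f b, LE_s1 hE hi b c d e f a,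
    add_left_comm (LE tab E a b d e f c)]

theorem S6L_s3 (hE : Sy E) (hi : invk tab = true) (a b c d e f : V) :
    S6L tab E a b c e d f = S6L tab E a b c d e f := by
  unfold S6L
  rw [LE_s3 hE hi a b c d e f, LE_s2 hE hi a b d e f c, LE_s2 hE hi a c d e f b, LE_s2 hE hi b c d e f a,
    add_left_comm (LE tab E a b c e f d)]

theorem S6L_s4 (hE : Sy E) (hi : invk tab = true) (a b c d e f : V) :
    S6L tab E a b c d f e = S6L tab E a b c d e f := by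
  unfold S6L
  rw [LE_s3 hE hi a b c e f d, LE_s3 hE hi a b d e f c, LE_s3 hE hi a c d e f b, LE_s3 hE hi b c d e f a,
    add_left_comm (LE tab E a b c d f e)]

theorem ZL_eq (hE : Sy E) (G C P : ℕ) (a b c d e f : V) :
    ZE E (ZL tab G C P) a b c d e f = (C - G * S6L tab E a b c d e f) + P * XM E 14 a b c d e f := by
  have h0 : S6L tab E a b c d e f = tab (cd5 (E d e f) (E c e f) (E b e f) (E a e f) (E c d f) (E b d f) (E a d f) (E b c f) (E a c f) (E a b f)) + (tab (cd5 (E d e f) (E c e f) (E b e f) (E a e f) (E c d e) (E b d e) (E a d e) (E b c e) (E a c e) (E a b e)) + (tab (cd5 (E d e f) (E c d f) (E b d f) (E a d f) (E c d e) (E b d e) (E a d e) (E b c d) (E a c d) (E a b d)) + (tab (cd5 (E c e f) (E c d f) (E b c f) (E a c f) (E c d e) (E b c e) (E a c e) (E b c d) (E a c d) (E a b c)) + (tab (cd5 (E b e f) (E b d f) (E b c f) (E a b f) (E b d e) (E b c e) (E a b e) (E b c d) (E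 a b d) (E a b c)) + (tab (cd5 (E a e f) (E a d f) (E a c f) (E a b f) (E a d e) (E a c e) (E a b e) (E a c d) (E a b d) (E a b c))))))) := by
    unfold S6L LE
    rw [hE.h132 a e f, hE.h132 b e f, hE.h132 c e f, hE.h132 d e f, hE.h132 a d e, hE.h132 a d f, hE.h132 b d e, hE.h132 b d f, hE.h132 c d e, hE.h132 c d f, hE.h231 d e f, hE.h132 a c d, hE.h132 a c e, hE.h132 a c f, hE.h132 b c d, hE.h132 b c e, hE.h132 b c f, hE.h231 c d e, hE.h231 c d f, hE.h231 c e f, hE.h132 a b c, hE.h132 a b d, hE.h132 a b e, hE.h132 a b f, hE.h231 b c d, hE.h231 b c e, hE.h231 b c f, hE.h231 b d e, hE.h231 b d f, hE.h231 b e f, hE.h231 a b c, hE.h231 a b d, hE.h231 a b e, hE.h231 a b f, hE.h231 a c d, hE.h231 a c e, hE.h231 a c f, hE.h231 a d e, hE.h231 a d f, hE.h231 a e f]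
  rw [h0]
  have h1 : ∀ x : ℕ, (C - G * x) + cond (Nat.beq (cnt (E a b c) (E a b d) (E a c d) (E b c d) (E a b e) (E a c e) (E b c e) (E a d e) (E b d e) (E c d e) (E a b f) (E a c f) (E b c f) (E a d f) (E b d f) (E c d f) (E a e f) (E b e f) (E c e f) (E d e f)) 14) P 0 =
      (C - G * x) + P * XM E 14 a b c d e f := by
    intro x
    congr 1
    unfold XM
    generalize cnt (E a b c) (E a b d) (E a c d) (E b c d) (E a b e) (E a c e) (E b c e) (E a d e) (E b d e) (E c d e) (E a b f) (E a c f) (E b c f) (E a d f) (E b d f) (E c d f) (E a e f) (E b e f) (E c e f) (E d e f) = m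
    by_cases h : m = 14
    · subst h
      rw [if_pos rfl, mul_one]
      rfl
    · rw [if_neg h, mul_zero]
      have : Nat.beq m 14 = false := by
        rw [← Bool.not_eq_true]
        exact fun h2 => h (Nat.eq_of_beq_eq_true h2)
      rw [this]
      rfl
  rw [← h1]
  rfl

theorem XM_4 (hE : Sy E) (m : ℕ) (a b c d e f : V) : XM E m a b c d f e = XM E m a b c d e f := by
  unfold XM
  rw [hE.h132 a e f, hE.h132 b e f, hE.h132 c e f, hE.h132 d e f]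
  have : ∀ b012 b013 b023 b123 b014 b024 b124 b034 b134 b234 b015 b025 b125 b035 b135 b235 b045 b145 b245 b345 : ℕ, cnt b012 b013 b023 b123 b015 b025 b125 b035 b135 b235 b014 b024 b124 b034 b134 b234 b045 b145 b245 b345 = cnt b012 b013 b023 b123 b014 b024 b124 b034 b134 b234 b015 b025 b125 b035 b135 b235 b045 b145 b245 b345 := by
    intro b012 b013 b023 b123 b014 b024 b124 b034 b134 b234 b015 b025 b125 b035 b135 b235 b045 b145 b245 b345
    unfold cnt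
    simp only [Nat.add_eq]
    ring
  rw [this]

theorem hL0 (hE : Sy E) (hi : invk tab = true) (G C P : ℕ) (a b c d e f : V) :
    ZE E (ZL tab G C P) b a c d e f = ZE E (ZL tab G C P) a b c d e f := by
  rw [ZL_eq hE, ZL_eq hE, XM_0 hE, S6L_s0 hE hi]

theorem hL1 (hE : Sy E) (hi : invk tab = true) (G C P : ℕ) (a b c d e f : V) :
    ZE E (ZL tab G C P) a c b d e f = ZE E (ZL tab G C P) a b c d e f := by
  rw [ZL_eq hE, ZL_eq hE, XM_1 hE, S6L_s1 hE hi]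

theorem hL2 (hE : Sy E) (hi : invk tab = true) (G C P : ℕ) (a b c d e f : V) :
    ZE E (ZL tab G C P) a b d c e f = ZE E (ZL tab G C P) a b c d e f := by
  rw [ZL_eq hE, ZL_eq hE, XM_2 hE, S6L_s2 hE hi]

theorem hL3 (hE : Sy E) (hi : invk tab = true) (G C P : ℕ) (a b c d e f : V) :
    ZE E (ZL tab G C P) a b c e d f = ZE E (ZL tab G C P) a b c d e f := by
  rw [ZL_eq hE, ZL_eq hE, XM_3 hE, S6L_s3 hE hi]

theorem hL4 (hE : Sy E) (hi : invk tab = true) (G C P : ℕ) (a b c d e f : V) :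
    ZE E (ZL tab G C P) a b c d f e = ZE E (ZL tab G C P) a b c d e f := by
  rw [ZL_eq hE, ZL_eq hE, XM_4 hE, S6L_s4 hE hi]

end

section
variable {V : Type} [Fintype V]

/-- the sum over all six-tuples -/
def SL (tab : ℕ → ℕ) (E : V → V → V → ℕ) : ℕ :=
  ∑ x : Fin 6 → V, LE tab E (x 0) (x 1) (x 2) (x 3) (x 4) (x 5)

theorem reindex6 (s : Equiv.Perm (Fin 6)) (g : (Fin 6 → V) → ℕ) :
    ∑ x : Fin 6 → V, g (fun j => x (s j)) = ∑ x, g x :=
  (Equiv.arrowCongr s.symm (Equiv.refl V)).sum_comp g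

theorem sumS6L (tab : ℕ → ℕ) (E : V → V → V → ℕ) :
    ∑ x : Fin 6 → V, S6L tab E (x 0) (x 1) (x 2) (x 3) (x 4) (x 5) = 6 * SL tab E := by
  have h := fun s => reindex6 (V := V) s (fun y => LE tab E (y 0) (y 1) (y 2) (y 3) (y 4) (y 5))
  have c45 := h (Equiv.swap 4 5)
  have c345 := h ((Equiv.swap 3 4).trans (Equiv.swap 3 5))
  have c2345 := h ((Equiv.swap 2 3).trans ((Equiv.swap 2 4).trans (Equiv.swap 2 5)))
  have c12345 := h ((Equiv.swap 1 2).trans ((Equiv.swap 1 3).trans ((Equiv.swap 1 4).trans (Equiv.swap 1 5))))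
  have c012345 := h ((Equiv.swap 0 1).trans ((Equiv.swap 0 2).trans ((Equiv.swap 0 3).trans ((Equiv.swap 0 4).trans (Equiv.swap 0 5)))))
  change ∑ x : Fin 6 → V, LE tab E (x 0) (x 1) (x 2) (x 3) (x 5) (x 4) = SL tab E at c45
  change ∑ x : Fin 6 → V, LE tab E (x 0) (x 1) (x 2) (x 4) (x 5) (x 3) = SL tab E at c345
  change ∑ x : Fin 6 → V, LE tab E (x 0) (x 1) (x 3) (x 4) (x 5) (x 2) = SL tab E at c2345
  change ∑ x : Fin 6 → V, LE tab E (x 0) (x 2) (x 3) (x 4) (x 5) (x 1) = SL tab E at c12345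
  change ∑ x : Fin 6 → V, LE tab E (x 1) (x 2) (x 3) (x 4) (x 5) (x 0) = SL tab E at c012345
  unfold S6L
  rw [sum_add_distrib, sum_add_distrib, sum_add_distrib, sum_add_distrib, sum_add_distrib,
    c45, c345, c2345, c12345, c012345]
  change SL tab E + _ = _
  ring

theorem conclL (tab : ℕ → ℕ) {E : V → V → V → ℕ} (hE : Sy E) (G C P R T SH : ℕ) (htab : ∀ c, tab c ≤ T)
    (hG : G * (6 * T) ≤ C) (hC : C = 60 * SH + R)
    (hb : (15 * (SH : ℤ) + 45 * (SH : ℤ)) * (Fintype.card V : ℤ) ^ 6 ≤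
      ∑ x : Fin 6 → V, (ZE E (ZL tab G C P) (x 0) (x 1) (x 2) (x 3) (x 4) (x 5) : ℤ)) :
    6 * G * SL tab E ≤ R * (Fintype.card V) ^ 6 +
      P * ∑ x : Fin 6 → V, XM E 14 (x 0) (x 1) (x 2) (x 3) (x 4) (x 5) := by
  have h1 : ∀ x : Fin 6 → V, (ZE E (ZL tab G C P) (x 0) (x 1) (x 2) (x 3) (x 4) (x 5) : ℤ) =
      (C : ℤ) - (G : ℤ) * ((S6L tab E (x 0) (x 1) (x 2) (x 3) (x 4) (x 5) : ℕ) : ℤ) +
        (P : ℤ) * (XM E 14 (x 0) (x 1) (x 2) (x 3) (x 4) (x 5) : ℤ) := by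
    intro x
    rw [ZL_eq hE]
    have h2 : S6L tab E (x 0) (x 1) (x 2) (x 3) (x 4) (x 5) ≤ 6 * T := by
      have hT : ∀ p q r s t u : V, LE tab E p q r s t u ≤ T := fun p q r s t u => htab _
      unfold S6L
      linarith [hT (x 0) (x 1) (x 2) (x 3) (x 4) (x 5), hT (x 0) (x 1) (x 2) (x 3) (x 5) (x 4),
        hT (x 0) (x 1) (x 2) (x 4) (x 5) (x 3), hT (x 0) (x 1) (x 3) (x 4) (x 5) (x 2),
        hT (x 0) (x 2) (x 3) (x 4) (x 5) (x 1), hT (x 1) (x 2) (x 3) (x 4) (x 5) (x 0)]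
    have h3 : G * S6L tab E (x 0) (x 1) (x 2) (x 3) (x 4) (x 5) ≤ C :=
      (Nat.mul_le_mul_left _ h2).trans hG
    push_cast [Nat.cast_sub h3]
    ring
  simp only [h1] at hb
  rw [sum_add_distrib, sum_sub_distrib, sum_const, card_univ, Fintype.card_fun, Fintype.card_fin,
    nsmul_eq_mul, ← mul_sum, ← mul_sum] at hb
  have h4 : ∑ x : Fin 6 → V, ((S6L tab E (x 0) (x 1) (x 2) (x 3) (x 4) (x 5) : ℕ) : ℤ) =
      ((6 * SL tab E : ℕ) : ℤ) := by
    rw [← sumS6L, Nat.cast_sum]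
  rw [h4, hC] at hb
  push_cast at hb
  have h5 : (6 * (G : ℤ) * (SL tab E : ℤ)) ≤
      (R : ℤ) * (Fintype.card V : ℤ) ^ 6 + (P : ℤ) *
        ∑ x : Fin 6 → V, (XM E 14 (x 0) (x 1) (x 2) (x 3) (x 4) (x 5) : ℤ) := by
    linarith
  exact_mod_cast h5

/-- the number of homomorphisms from the cone -/
def NL (E : V → V → V → ℕ) (f : ℕ) : ℕ := SL (sbn f) E

variable {E : V → V → V → ℕ}

theorem NL_s0 (hE : Sy E) {f012 f013 f023 f123 f014 f024 f124 f034 f134 f234 : ℕ}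
    (h0 : Bt f012) (h1 : Bt f013) (h2 : Bt f023) (h3 : Bt f123) (h4 : Bt f014) (h5 : Bt f024)
    (h6 : Bt f124) (h7 : Bt f034) (h8 : Bt f134) (h9 : Bt f234) :
    NL E (cd5 f012 f013 f123 f023 f014 f124 f024 f134 f034 f234) =
      NL E (cd5 f012 f013 f023 f123 f014 f024 f124 f034 f134 f234) := by
  unfold NL SL
  rw [← reindex6 (Equiv.swap 0 1) (fun x => LE (sbn (cd5 f012 f013 f023 f123 f014 f024 f124 f034 f134 f234)) E (x 0) (x 1) (x 2) (x 3) (x 4) (x 5))]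
  refine sum_congr rfl fun x _ => ?_
  change _ = LE (sbn (cd5 f012 f013 f023 f123 f014 f024 f124 f034 f134 f234)) E (x 1) (x 0) (x 2) (x 3) (x 4) (x 5)
  unfold LE
  rw [sb_iff h0 h1 h3 h2 h4 h6 h5 h8 h7 h9 (hE.b _ _ _) (hE.b _ _ _) (hE.b _ _ _) (hE.b _ _ _) (hE.b _ _ _) (hE.b _ _ _) (hE.b _ _ _) (hE.b _ _ _) (hE.b _ _ _) (hE.b _ _ _),
    sb_iff h0 h1 h2 h3 h4 h5 h6 h7 h8 h9 (hE.b _ _ _) (hE.b _ _ _) (hE.b _ _ _) (hE.b _ _ _) (hE.b _ _ _) (hE.b _ _ _) (hE.b _ _ _) (hE.b _ _ _) (hE.b _ _ _) (hE.b _ _ _),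
    hE.h213 (x 0) (x 1) (x 5)]
  exact if_congr (by constructor <;> (rintro ⟨a0, a1, a2, a3, a4, a5, a6, a7, a8, a9⟩; refine ⟨?_, ?_, ?_, ?_, ?_, ?_, ?_, ?_, ?_, ?_⟩ <;> assumption)) rfl rfl

theorem NL_s1 (hE : Sy E) {f012 f013 f023 f123 f014 f024 f124 f034 f134 f234 : ℕ}
    (h0 : Bt f012) (h1 : Bt f013) (h2 : Bt f023) (h3 : Bt f123) (h4 : Bt f014) (h5 : Bt f024)
    (h6 : Bt f124) (h7 : Bt f034) (h8 : Bt f134) (h9 : Bt f234) :
    NL E (cd5 f012 f023 f013 f123 f024 f014 f124 f034 f234 f134) =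
      NL E (cd5 f012 f013 f023 f123 f014 f024 f124 f034 f134 f234) := by
  unfold NL SL
  rw [← reindex6 (Equiv.swap 1 2) (fun x => LE (sbn (cd5 f012 f013 f023 f123 f014 f024 f124 f034 f134 f234)) E (x 0) (x 1) (x 2) (x 3) (x 4) (x 5))]
  refine sum_congr rfl fun x _ => ?_
  change _ = LE (sbn (cd5 f012 f013 f023 f123 f014 f024 f124 f034 f134 f234)) E (x 0) (x 2) (x 1) (x 3) (x 4) (x 5)
  unfold LE
  rw [sb_iff h0 h2 h1 h3 h5 h4 h6 h7 h9 h8 (hE.b _ _ _) (hE.b _ _ _) (hE.b _ _ _) (hE.b _ _ _) (hE.b _ _ _) (hE.b _ _ _) (hE.b _ _ _) (hE.b _ _ _) (hE.b _ _ _) (hE.b _ _ _),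
    sb_iff h0 h1 h2 h3 h4 h5 h6 h7 h8 h9 (hE.b _ _ _) (hE.b _ _ _) (hE.b _ _ _) (hE.b _ _ _) (hE.b _ _ _) (hE.b _ _ _) (hE.b _ _ _) (hE.b _ _ _) (hE.b _ _ _) (hE.b _ _ _),
    hE.h213 (x 1) (x 2) (x 5)]
  exact if_congr (by constructor <;> (rintro ⟨a0, a1, a2, a3, a4, a5, a6, a7, a8, a9⟩; refine ⟨?_, ?_, ?_, ?_, ?_, ?_, ?_, ?_, ?_, ?_⟩ <;> assumption)) rfl rfl

theorem NL_s2 (hE : Sy E) {f012 f013 f023 f123 f014 f024 f124 f034 f134 f234 : ℕ}
    (h0 : Bt f012) (h1 : Bt f013) (h2 : Bt f023) (h3 : Bt f123) (h4 : Bt f014) (h5 : Bt f024)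
    (h6 : Bt f124) (h7 : Bt f034) (h8 : Bt f134) (h9 : Bt f234) :
    NL E (cd5 f013 f012 f023 f123 f014 f034 f134 f024 f124 f234) =
      NL E (cd5 f012 f013 f023 f123 f014 f024 f124 f034 f134 f234) := by
  unfold NL SL
  rw [← reindex6 (Equiv.swap 2 3) (fun x => LE (sbn (cd5 f012 f013 f023 f123 f014 f024 f124 f034 f134 f234)) E (x 0) (x 1) (x 2) (x 3) (x 4) (x 5))]
  refine sum_congr rfl fun x _ => ?_
  change _ = LE (sbn (cd5 f012 f013 f023 f123 f014 f024 f124 f034 f134 f234)) E (x 0) (x 1) (x 3) (x 2) (x 4) (x 5)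
  unfold LE
  rw [sb_iff h1 h0 h2 h3 h4 h7 h8 h5 h6 h9 (hE.b _ _ _) (hE.b _ _ _) (hE.b _ _ _) (hE.b _ _ _) (hE.b _ _ _) (hE.b _ _ _) (hE.b _ _ _) (hE.b _ _ _) (hE.b _ _ _) (hE.b _ _ _),
    sb_iff h0 h1 h2 h3 h4 h5 h6 h7 h8 h9 (hE.b _ _ _) (hE.b _ _ _) (hE.b _ _ _) (hE.b _ _ _) (hE.b _ _ _) (hE.b _ _ _) (hE.b _ _ _) (hE.b _ _ _) (hE.b _ _ _) (hE.b _ _ _),
    hE.h213 (x 2) (x 3) (x 5)]
  exact if_congr (by constructor <;> (rintro ⟨a0, a1, a2, a3, a4, a5, a6, a7, a8, a9⟩; refine ⟨?_, ?_, ?_, ?_, ?_, ?_, ?_, ?_, ?_, ?_⟩ <;> assumption)) rfl rfl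

theorem NL_s3 (hE : Sy E) {f012 f013 f023 f123 f014 f024 f124 f034 f134 f234 : ℕ}
    (h0 : Bt f012) (h1 : Bt f013) (h2 : Bt f023) (h3 : Bt f123) (h4 : Bt f014) (h5 : Bt f024)
    (h6 : Bt f124) (h7 : Bt f034) (h8 : Bt f134) (h9 : Bt f234) :
    NL E (cd5 f012 f014 f024 f124 f013 f023 f123 f034 f134 f234) =
      NL E (cd5 f012 f013 f023 f123 f014 f024 f124 f034 f134 f234) := by
  unfold NL SL
  rw [← reindex6 (Equiv.swap 3 4) (fun x => LE (sbn (cd5 f012 f013 f023 f123 f014 f024 f124 f034 f134 f234)) E (x 0) (x 1) (x 2) (x 3) (x 4) (x 5))]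
  refine sum_congr rfl fun x _ => ?_
  change _ = LE (sbn (cd5 f012 f013 f023 f123 f014 f024 f124 f034 f134 f234)) E (x 0) (x 1) (x 2) (x 4) (x 3) (x 5)
  unfold LE
  rw [sb_iff h0 h4 h5 h6 h1 h2 h3 h7 h8 h9 (hE.b _ _ _) (hE.b _ _ _) (hE.b _ _ _) (hE.b _ _ _) (hE.b _ _ _) (hE.b _ _ _) (hE.b _ _ _) (hE.b _ _ _) (hE.b _ _ _) (hE.b _ _ _),
    sb_iff h0 h1 h2 h3 h4 h5 h6 h7 h8 h9 (hE.b _ _ _) (hE.b _ _ _) (hE.b _ _ _) (hE.b _ _ _) (hE.b _ _ _) (hE.b _ _ _) (hE.b _ _ _) (hE.b _ _ _) (hE.b _ _ _) (hE.b _ _ _),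
    hE.h213 (x 3) (x 4) (x 5)]
  exact if_congr (by constructor <;> (rintro ⟨a0, a1, a2, a3, a4, a5, a6, a7, a8, a9⟩; refine ⟨?_, ?_, ?_, ?_, ?_, ?_, ?_, ?_, ?_, ?_⟩ <;> assumption)) rfl rfl

theorem ends_NL (hE : Sy E) (n : ℕ) : ∀ {b012 b013 b023 b123 b014 b024 b124 b034 b134 b234 : ℕ},
    Bt b012 → Bt b013 → Bt b023 → Bt b123 → Bt b014 → Bt b024 → Bt b124 → Bt b034 → Bt b134 → Bt b234 →
    NL E (ends n b012 b013 b023 b123 b014 b024 b124 b034 b134 b234) =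
      NL E (cd5 b012 b013 b023 b123 b014 b024 b124 b034 b134 b234) := by
  induction n with
  | zero => intros; rfl
  | succ n ih =>
    intro b012 b013 b023 b123 b014 b024 b124 b034 b134 b234 h0 h1 h2 h3 h4 h5 h6 h7 h8 h9
    change NL E (cond (Nat.beq (tg5 b012 b013 b023 b123 b014 b024 b124 b034 b134 b234) 0) (ends n b012 b013 b123 b023 b014 b124 b024 b134 b034 b234)
      (cond (Nat.beq (tg5 b012 b013 b023 b123 b014 b024 b124 b034 b134 b234) 1) (ends n b012 b023 b013 b123 b024 b014 b124 b034 b234 b134)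
      (cond (Nat.beq (tg5 b012 b013 b023 b123 b014 b024 b124 b034 b134 b234) 2) (ends n b013 b012 b023 b123 b014 b034 b134 b024 b124 b234)
      (cond (Nat.beq (tg5 b012 b013 b023 b123 b014 b024 b124 b034 b134 b234) 3) (ends n b012 b014 b024 b124 b013 b023 b123 b034 b134 b234)
      (cd5 b012 b013 b023 b123 b014 b024 b124 b034 b134 b234))))) = _
    cases Nat.beq (tg5 b012 b013 b023 b123 b014 b024 b124 b034 b134 b234) 0 with
    | true => exact (ih h0 h1 h3 h2 h4 h6 h5 h8 h7 h9).trans (NL_s0 hE h0 h1 h2 h3 h4 h5 h6 h7 h8 h9)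
    | false =>
    cases Nat.beq (tg5 b012 b013 b023 b123 b014 b024 b124 b034 b134 b234) 1 with
    | true => exact (ih h0 h2 h1 h3 h5 h4 h6 h7 h9 h8).trans (NL_s1 hE h0 h1 h2 h3 h4 h5 h6 h7 h8 h9)
    | false =>
    cases Nat.beq (tg5 b012 b013 b023 b123 b014 b024 b124 b034 b134 b234) 2 with
    | true => exact (ih h1 h0 h2 h3 h4 h7 h8 h5 h6 h9).trans (NL_s2 hE h0 h1 h2 h3 h4 h5 h6 h7 h8 h9)
    | false =>
    cases Nat.beq (tg5 b012 b013 b023 b123 b014 b024 b124 b034 b134 b234) 3 with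
    | true => exact (ih h0 h4 h5 h6 h1 h2 h3 h7 h8 h9).trans (NL_s3 hE h0 h1 h2 h3 h4 h5 h6 h7 h8 h9)
    | false => rfl

theorem chkO_NL (hE : Sy E) {r L n : ℕ}
    (h : F5.chkO r L n = true) {k : ℕ} (hk : k < n) : NL E (F5.el L k) = NL E r := by
  have h1 := nall_true h k hk
  rw [Bool.and_eq_true] at h1
  have h2 := Nat.eq_of_beq_eq_true h1.1
  have h3 := Nat.eq_of_beq_eq_true h1.2
  have h4 := ends_NL hE 7 (bt_Bt (F5.el L k) 0) (bt_Bt (F5.el L k) 1) (bt_Bt (F5.el L k) 2) (bt_Bt (F5.el L k) 3) (bt_Bt (F5.el L k) 4) (bt_Bt (F5.el L k) 5) (bt_Bt (F5.el L k) 6) (bt_Bt (F5.el L k) 7) (bt_Bt (F5.el L k) 8) (bt_Bt (F5.el L k) 9)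
  rw [h3, h2] at h4
  exact h4.symm

theorem sum_listL (hE : Sy E) {r L n : ℕ} (h : F5.chkO r L n = true) :
    ∑ x : Fin 6 → V, ∑ k ∈ range n, LE (sbn (F5.el L k)) E (x 0) (x 1) (x 2) (x 3) (x 4) (x 5) =
      n * NL E r := by
  rw [sum_comm]
  have : ∀ k ∈ range n, ∑ x : Fin 6 → V, LE (sbn (F5.el L k)) E (x 0) (x 1) (x 2) (x 3) (x 4) (x 5) =
      NL E r := fun k hk => chkO_NL hE h (mem_range.mp hk)
  rw [sum_congr rfl this, sum_const, card_range, smul_eq_mul]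

theorem SL_eq (hE : Sy E) {tab : ℕ → ℕ} {α L1 n1 r1 β L2 n2 r2 : ℕ}
    (h1 : F5.chkO r1 L1 n1 = true) (h2 : F5.chkO r2 L2 n2 = true)
    (hT : F5.chkT tab α L1 n1 β L2 n2 = true) :
    SL tab E = α * (n1 * NL E r1) + β * (n2 * NL E r2) := by
  rw [← sum_listL hE h1, ← sum_listL hE h2, mul_sum, mul_sum, ← sum_add_distrib]
  unfold SL
  refine sum_congr rfl fun x _ => ?_
  have h3 := (B2_true (B2_true (B2_true (B2_true (B2_true (B2_true (B2_true (B2_true (B2_true (B2_true hT (hE.b (x 3) (x 4) (x 5))) (hE.b (x 2) (x 4) (x 5))) (hE.b (x 1) (x 4) (x 5))) (hE.b (x 0) (x 4) (x 5))) (hE.b (x 2) (x 3) (x 5))) (hE.b (x 1) (x 3) (x 5))) (hE.b (x 0) (x 3) (x 5))) (hE.b (x 1) (x 2) (x 5))) (hE.b (x 0) (x 2) (x 5))) (hE.b (x 0) (x 1) (x 5)))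
  have h4 := Nat.eq_of_beq_eq_true h3
  rw [nsum_eq, nsum_eq] at h4
  exact h4

end

end Pool.Agent.U991.L6
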