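import Pool.Agent.U991.L6.Part00
import Pool.Agent.U991.L6.Part01
import Pool.Agent.U991.L6.Part10
import Pool.Agent.U991.L6.Part11

/-! Six-vertex certificates: the inequality is needed only for the representatives. -/

set_option autoImplicit false
set_option maxRecDepth 100000
set_option maxHeartbeats 4000000
open Finset

namespace Pool.Agent.U991.L6
open Pool.Agent.H122R2.N6 Pool.Agent.H37R3.Pen Pool.Agent.Y580.FL

/-- the bits of a code -/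
def bi (c i : ℕ) : ℕ := Nat.mod (Nat.shiftRight c i) 2

theorem bi_z {b : ℕ} (h : Bt b) (m : ℕ) : bi (Nat.add b (Nat.mul 2 m)) 0 = b := by
  have e : bi (Nat.add b (Nat.mul 2 m)) 0 = (b + 2 * m) % 2 := rfl
  rw [e]
  rcases h with rfl | rfl <;> omega

theorem bi_s {b : ℕ} (h : Bt b) (m i : ℕ) : bi (Nat.add b (Nat.mul 2 m)) (i + 1) = bi m i := by
  have e : bi (Nat.add b (Nat.mul 2 m)) (i + 1) = ((b + 2 * m) >>> (i + 1)) % 2 := rfl
  have e2 : bi m i = (m >>> i) % 2 := rfl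
  rw [e, e2, Nat.shiftRight_succ_inside]
  have : (b + 2 * m) / 2 = m := by rcases h with rfl | rfl <;> omega
  rw [this]

theorem bi_l {b : ℕ} (h : Bt b) : bi b 0 = b := by
  rcases h with rfl | rfl <;> rfl

/-- the leaf inequality at a code -/
def leafc (q4 : ℕ → ℕ → ℕ → ℕ) (q2 : ℕ → ℕ → ℕ) (Z : ℕ → ℕ → ℕ → ℕ → ℕ → ℕ → ℕ → ℕ → ℕ → ℕ → ℕ → ℕ → ℕ → ℕ → ℕ → ℕ → ℕ → ℕ → ℕ → ℕ → ℕ) (c : ℕ) : Bool :=
  Nat.ble (Nat.add (leaf4 q4 (bi c 0) (bi c 1) (bi c 2) (bi c 3) (bi c 4) (bi c 5) (bi c 6) (bi c 7) (bi c 8) (bi c 9) (bi c 10) (bi c 11) (bi c 12) (bi c 13) (bi c 14) (bi c 15) (bi c 16) (bi c 17) (bi c 18) (bi c 19)) (leaf2 q2 (bi c 0) (bi c 1) (bi c 2) (bi c 3) (bi c 4) (bi c 5) (bi c 6) (bi c 7) (bi c 8) (bi c 9) (bi c 10) (bi c 11) (bi c 12) (bi c 13) (bi c 14) (bi c 15) (bi c 16) (bi c 17) (bi c 18) (bi c 19))) (Z (bi c 0) (bi c 1) (bi c 2) (bi c 3) (bi c 4) (bi c 5) (bi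 c 6) (bi c 7) (bi c 8) (bi c 9) (bi c 10) (bi c 11) (bi c 12) (bi c 13) (bi c 14) (bi c 15) (bi c 16) (bi c 17) (bi c 18) (bi c 19))

theorem leafc_cd {q4 : ℕ → ℕ → ℕ → ℕ} {q2 : ℕ → ℕ → ℕ} {Z : ℕ → ℕ → ℕ → ℕ → ℕ → ℕ → ℕ → ℕ → ℕ → ℕ → ℕ → ℕ → ℕ → ℕ → ℕ → ℕ → ℕ → ℕ → ℕ → ℕ → ℕ}
    {b012 b013 b023 b123 b014 b024 b124 b034 b134 b234 b015 b025 b125 b035 b135 b235 b045 b145 b245 b345 : ℕ} (hb012 : Bt b012) (hb013 : Bt b013) (hb023 : Bt b023) (hb123 : Bt b123) (hb014 : Bt b014) (hb024 : Bt b024) (hb124 : Bt b124) (hb034 : Bt b034) (hb134 : Bt b134) (hb234 : Bt b234) (hb015 : Bt b015) (hb025 : Bt b025) (hb125 : Bt b125) (hb035 : Bt b035) (hb135 : Bt b135) (hb235 : Bt b235) (hb045 : Bt b045) (hb145 : Bt b145) (hb245 : Bt b245) (hb345 : Bt b345) :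
    leafc q4 q2 Z (cd20 b012 b013 b023 b123 b014 b024 b124 b034 b134 b234 b015 b025 b125 b035 b135 b235 b045 b145 b245 b345) = Nat.ble (Nat.add (leaf4 q4 b012 b013 b023 b123 b014 b024 b124 b034 b134 b234 b015 b025 b125 b035 b135 b235 b045 b145 b245 b345) (leaf2 q2 b012 b013 b023 b123 b014 b024 b124 b034 b134 b234 b015 b025 b125 b035 b135 b235 b045 b145 b245 b345)) (Z b012 b013 b023 b123 b014 b024 b124 b034 b134 b234 b015 b025 b125 b035 b135 b235 b045 b145 b245 b345) := by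
  have e0 : bi (cd20 b012 b013 b023 b123 b014 b024 b124 b034 b134 b234 b015 b025 b125 b035 b135 b235 b045 b145 b245 b345) 0 = b012 := (bi_z hb012 _)
  have e1 : bi (cd20 b012 b013 b023 b123 b014 b024 b124 b034 b134 b234 b015 b025 b125 b035 b135 b235 b045 b145 b245 b345) 1 = b013 := ((bi_s hb012 _ _).trans (bi_z hb013 _))
  have e2 : bi (cd20 b012 b013 b023 b123 b014 b024 b124 b034 b134 b234 b015 b025 b125 b035 b135 b235 b045 b145 b245 b345) 2 = b023 := ((bi_s hb012 _ _).trans ((bi_s hb013 _ _).trans (bi_z hb023 _)))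
  have e3 : bi (cd20 b012 b013 b023 b123 b014 b024 b124 b034 b134 b234 b015 b025 b125 b035 b135 b235 b045 b145 b245 b345) 3 = b123 := ((bi_s hb012 _ _).trans ((bi_s hb013 _ _).trans ((bi_s hb023 _ _).trans (bi_z hb123 _))))
  have e4 : bi (cd20 b012 b013 b023 b123 b014 b024 b124 b034 b134 b234 b015 b025 b125 b035 b135 b235 b045 b145 b245 b345) 4 = b014 := ((bi_s hb012 _ _).trans ((bi_s hb013 _ _).trans ((bi_s hb023 _ _).trans ((bi_s hb123 _ _).trans (bi_z hb014 _)))))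
  have e5 : bi (cd20 b012 b013 b023 b123 b014 b024 b124 b034 b134 b234 b015 b025 b125 b035 b135 b235 b045 b145 b245 b345) 5 = b024 := ((bi_s hb012 _ _).trans ((bi_s hb013 _ _).trans ((bi_s hb023 _ _).trans ((bi_s hb123 _ _).trans ((bi_s hb014 _ _).trans (bi_z hb024 _))))))
  have e6 : bi (cd20 b012 b013 b023 b123 b014 b024 b124 b034 b134 b234 b015 b025 b125 b035 b135 b235 b045 b145 b245 b345) 6 = b124 := ((bi_s hb012 _ _).trans ((bi_s hb013 _ _).trans ((bi_s hb023 _ _).trans ((bi_s hb123 _ _).trans ((bi_s hb014 _ _).trans ((bi_s hb024 _ _).trans (bi_z hb124 _)))))))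
  have e7 : bi (cd20 b012 b013 b023 b123 b014 b024 b124 b034 b134 b234 b015 b025 b125 b035 b135 b235 b045 b145 b245 b345) 7 = b034 := ((bi_s hb012 _ _).trans ((bi_s hb013 _ _).trans ((bi_s hb023 _ _).trans ((bi_s hb123 _ _).trans ((bi_s hb014 _ _).trans ((bi_s hb024 _ _).trans ((bi_s hb124 _ _).trans (bi_z hb034 _))))))))
  have e8 : bi (cd20 b012 b013 b023 b123 b014 b024 b124 b034 b134 b234 b015 b025 b125 b035 b135 b235 b045 b145 b245 b345) 8 = b134 := ((bi_s hb012 _ _).trans ((bi_s hb013 _ _).trans ((bi_s hb023 _ _).trans ((bi_s hb123 _ _).trans ((bi_s hb014 _ _).trans ((bi_s hb024 _ _).trans ((bi_s hb124 _ _).trans ((bi_s hb034 _ _).trans (bi_z hb134 _)))))))))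
  have e9 : bi (cd20 b012 b013 b023 b123 b014 b024 b124 b034 b134 b234 b015 b025 b125 b035 b135 b235 b045 b145 b245 b345) 9 = b234 := ((bi_s hb012 _ _).trans ((bi_s hb013 _ _).trans ((bi_s hb023 _ _).trans ((bi_s hb123 _ _).trans ((bi_s hb014 _ _).trans ((bi_s hb024 _ _).trans ((bi_s hb124 _ _).trans ((bi_s hb034 _ _).trans ((bi_s hb134 _ _).trans (bi_z hb234 _))))))))))
  have e10 : bi (cd20 b012 b013 b023 b123 b014 b024 b124 b034 b134 b234 b015 b025 b125 b035 b135 b235 b045 b145 b245 b345) 10 = b015 := ((bi_s hb012 _ _).trans ((bi_s hb013 _ _).trans ((bi_s hb023 _ _).trans ((bi_s hb123 _ _).trans ((bi_s hb014 _ _).trans ((bi_s hb024 _ _).trans ((bi_s hb124 _ _).trans ((bi_s hb034 _ _).trans ((bi_s hb134 _ _).trans ((bi_s hb234 _ _).trans (bi_z hb015 _)))))))))))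
  have e11 : bi (cd20 b012 b013 b023 b123 b014 b024 b124 b034 b134 b234 b015 b025 b125 b035 b135 b235 b045 b145 b245 b345) 11 = b025 := ((bi_s hb012 _ _).trans ((bi_s hb013 _ _).trans ((bi_s hb023 _ _).trans ((bi_s hb123 _ _).trans ((bi_s hb014 _ _).trans ((bi_s hb024 _ _).trans ((bi_s hb124 _ _).trans ((bi_s hb034 _ _).trans ((bi_s hb134 _ _).trans ((bi_s hb234 _ _).trans ((bi_s hb015 _ _).trans (bi_z hb025 _))))))))))))
  have e12 : bi (cd20 b012 b013 b023 b123 b014 b024 b124 b034 b134 b234 b015 b025 b125 b035 b135 b235 b045 b145 b245 b345) 12 = b125 := ((bi_s hb012 _ _).trans ((bi_s hb013 _ _).trans ((bi_s hb023 _ _).trans ((bi_s hb123 _ _).trans ((bi_s hb014 _ _).trans ((bi_s hb024 _ _).trans ((bi_s hb124 _ _).trans ((bi_s hb034 _ _).trans ((bi_s hb134 _ _).trans ((bi_s hb234 _ _).trans ((bi_s hb015 _ _).trans ((bi_s hb025 _ _).trans (bi_z hb125 _)))))))))))))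
  have e13 : bi (cd20 b012 b013 b023 b123 b014 b024 b124 b034 b134 b234 b015 b025 b125 b035 b135 b235 b045 b145 b245 b345) 13 = b035 := ((bi_s hb012 _ _).trans ((bi_s hb013 _ _).trans ((bi_s hb023 _ _).trans ((bi_s hb123 _ _).trans ((bi_s hb014 _ _).trans ((bi_s hb024 _ _).trans ((bi_s hb124 _ _).trans ((bi_s hb034 _ _).trans ((bi_s hb134 _ _).trans ((bi_s hb234 _ _).trans ((bi_s hb015 _ _).trans ((bi_s hb025 _ _).trans ((bi_s hb125 _ _).trans (bi_z hb035 _))))))))))))))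
  have e14 : bi (cd20 b012 b013 b023 b123 b014 b024 b124 b034 b134 b234 b015 b025 b125 b035 b135 b235 b045 b145 b245 b345) 14 = b135 := ((bi_s hb012 _ _).trans ((bi_s hb013 _ _).trans ((bi_s hb023 _ _).trans ((bi_s hb123 _ _).trans ((bi_s hb014 _ _).trans ((bi_s hb024 _ _).trans ((bi_s hb124 _ _).trans ((bi_s hb034 _ _).trans ((bi_s hb134 _ _).trans ((bi_s hb234 _ _).trans ((bi_s hb015 _ _).trans ((bi_s hb025 _ _).trans ((bi_s hb125 _ _).trans ((bi_s hb035 _ _).trans (bi_z hb135 _)))))))))))))))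
  have e15 : bi (cd20 b012 b013 b023 b123 b014 b024 b124 b034 b134 b234 b015 b025 b125 b035 b135 b235 b045 b145 b245 b345) 15 = b235 := ((bi_s hb012 _ _).trans ((bi_s hb013 _ _).trans ((bi_s hb023 _ _).trans ((bi_s hb123 _ _).trans ((bi_s hb014 _ _).trans ((bi_s hb024 _ _).trans ((bi_s hb124 _ _).trans ((bi_s hb034 _ _).trans ((bi_s hb134 _ _).trans ((bi_s hb234 _ _).trans ((bi_s hb015 _ _).trans ((bi_s hb025 _ _).trans ((bi_s hb125 _ _).trans ((bi_s hb035 _ _).trans ((bi_s hb135 _ _).trans (bi_z hb235 _))))))))))))))))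
  have e16 : bi (cd20 b012 b013 b023 b123 b014 b024 b124 b034 b134 b234 b015 b025 b125 b035 b135 b235 b045 b145 b245 b345) 16 = b045 := ((bi_s hb012 _ _).trans ((bi_s hb013 _ _).trans ((bi_s hb023 _ _).trans ((bi_s hb123 _ _).trans ((bi_s hb014 _ _).trans ((bi_s hb024 _ _).trans ((bi_s hb124 _ _).trans ((bi_s hb034 _ _).trans ((bi_s hb134 _ _).trans ((bi_s hb234 _ _).trans ((bi_s hb015 _ _).trans ((bi_s hb025 _ _).trans ((bi_s hb125 _ _).trans ((bi_s hb035 _ _).trans ((bi_s hb135 _ _).trans ((bi_s hb235 _ _).trans (bi_z hb045 _)))))))))))))))))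
  have e17 : bi (cd20 b012 b013 b023 b123 b014 b024 b124 b034 b134 b234 b015 b025 b125 b035 b135 b235 b045 b145 b245 b345) 17 = b145 := ((bi_s hb012 _ _).trans ((bi_s hb013 _ _).trans ((bi_s hb023 _ _).trans ((bi_s hb123 _ _).trans ((bi_s hb014 _ _).trans ((bi_s hb024 _ _).trans ((bi_s hb124 _ _).trans ((bi_s hb034 _ _).trans ((bi_s hb134 _ _).trans ((bi_s hb234 _ _).trans ((bi_s hb015 _ _).trans ((bi_s hb025 _ _).trans ((bi_s hb125 _ _).trans ((bi_s hb035 _ _).trans ((bi_s hb135 _ _).trans ((bi_s hb235 _ _).trans ((bi_s hb045 _ _).trans (bi_z hb145 _))))))))))))))))))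
  have e18 : bi (cd20 b012 b013 b023 b123 b014 b024 b124 b034 b134 b234 b015 b025 b125 b035 b135 b235 b045 b145 b245 b345) 18 = b245 := ((bi_s hb012 _ _).trans ((bi_s hb013 _ _).trans ((bi_s hb023 _ _).trans ((bi_s hb123 _ _).trans ((bi_s hb014 _ _).trans ((bi_s hb024 _ _).trans ((bi_s hb124 _ _).trans ((bi_s hb034 _ _).trans ((bi_s hb134 _ _).trans ((bi_s hb234 _ _).trans ((bi_s hb015 _ _).trans ((bi_s hb025 _ _).trans ((bi_s hb125 _ _).trans ((bi_s hb035 _ _).trans ((bi_s hb135 _ _).trans ((bi_s hb235 _ _).trans ((bi_s hb045 _ _).trans ((bi_s hb145 _ _).trans (bi_z hb245 _)))))))))))))))))))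
  have e19 : bi (cd20 b012 b013 b023 b123 b014 b024 b124 b034 b134 b234 b015 b025 b125 b035 b135 b235 b045 b145 b245 b345) 19 = b345 := ((bi_s hb012 _ _).trans ((bi_s hb013 _ _).trans ((bi_s hb023 _ _).trans ((bi_s hb123 _ _).trans ((bi_s hb014 _ _).trans ((bi_s hb024 _ _).trans ((bi_s hb124 _ _).trans ((bi_s hb034 _ _).trans ((bi_s hb134 _ _).trans ((bi_s hb234 _ _).trans ((bi_s hb015 _ _).trans ((bi_s hb025 _ _).trans ((bi_s hb125 _ _).trans ((bi_s hb035 _ _).trans ((bi_s hb135 _ _).trans ((bi_s hb235 _ _).trans ((bi_s hb045 _ _).trans ((bi_s hb145 _ _).trans ((bi_s hb245 _ _).trans (bi_l hb345))))))))))))))))))))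
  unfold leafc
  rw [e0, e1, e2, e3, e4, e5, e6, e7, e8, e9, e10, e11, e12, e13, e14, e15, e16, e17, e18, e19]

section
variable {V : Type} {E : V → V → V → ℕ}

theorem L4_sw4 (hE : Sy E) {q4 : ℕ → ℕ → ℕ → ℕ} (hs : sym4 q4 = true) (a b c d e f : V) :
    L4 E q4 a b c d f e = L4 E q4 a b c d e f := by
  unfold L4
  rw [F4_s4 hE hs a b c d e f, F4_s3 hE hs a b e f c d, F4_s3 hE hs a c e f b d, F4_s3 hE hs a d e f b c,
    F4_s3 hE hs b c e f a d, F4_s3 hE hs b d e f a c, F4_s3 hE hs c d e f a b]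
  ring

theorem L2_sw4 (hE : Sy E) {q2 : ℕ → ℕ → ℕ} (hs : sym2 q2 = true) (a b c d e f : V) :
    L2 E q2 a b c d f e = L2 E q2 a b c d e f := by
  unfold L2
  rw [F2_s4 hE hs a b c d e f, F2_s4 hE hs a c b d e f, F2_s4 hE hs a d b c e f, F2_s4 hE hs b c a d e f, F2_s4 hE hs b d a c e f, F2_s4 hE hs c d a b e f, F2_s1 hE hs e f a b c d, F2_s1 hE hs e f a c b d, F2_s1 hE hs e f a d b c]
  ring

/-- the inequality for all tuples with the given structure -/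
def GoodS (E : V → V → V → ℕ) (q4 : ℕ → ℕ → ℕ → ℕ) (q2 : ℕ → ℕ → ℕ) (Z : ℕ → ℕ → ℕ → ℕ → ℕ → ℕ → ℕ → ℕ → ℕ → ℕ → ℕ → ℕ → ℕ → ℕ → ℕ → ℕ → ℕ → ℕ → ℕ → ℕ → ℕ) (b012 b013 b023 b123 b014 b024 b124 b034 b134 b234 b015 b025 b125 b035 b135 b235 b045 b145 b245 b345 : ℕ) : Prop :=
  ∀ a b c d e f : V, E a b c = b012 → E a b d = b013 → E a c d = b023 → E b c d = b123 → E a b e = b014 → E a c e = b024 → E b c e = b124 → E a d e = b034 → E b d e = b134 → E c d e = b234 → E a b f = b015 → E a c f = b025 → E b c f = b125 → E a d f = b035 → E b d f = b135 → E c d f = b235 → E a e f = b045 → E b e f = b145 → E c e f = b245 → E d e f = b345 →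
    L4 E q4 a b c d e f + L2 E q2 a b c d e f ≤ ZE E Z a b c d e f

theorem goodS_sw0 (hE : Sy E) {q4 : ℕ → ℕ → ℕ → ℕ} {q2 : ℕ → ℕ → ℕ} {Z : ℕ → ℕ → ℕ → ℕ → ℕ → ℕ → ℕ → ℕ → ℕ → ℕ → ℕ → ℕ → ℕ → ℕ → ℕ → ℕ → ℕ → ℕ → ℕ → ℕ → ℕ}
    (hX : ∀ a b c d e f, ZE E Z b a c d e f = ZE E Z a b c d e f)
    (hs4 : sym4 q4 = true) (hs2 : sym2 q2 = true) (b012 b013 b023 b123 b014 b024 b124 b034 b134 b234 b015 b025 b125 b035 b135 b235 b045 b145 b245 b345 : ℕ)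
    (h : GoodS E q4 q2 Z b012 b013 b123 b023 b014 b124 b024 b134 b034 b234 b015 b125 b025 b135 b035 b235 b145 b045 b245 b345) : GoodS E q4 q2 Z b012 b013 b023 b123 b014 b024 b124 b034 b134 b234 b015 b025 b125 b035 b135 b235 b045 b145 b245 b345 := by
  intro a b c d e f h0 h1 h2 h3 h4 h5 h6 h7 h8 h9 h10 h11 h12 h13 h14 h15 h16 h17 h18 h19
  have h' := h b a c d e f ((hE.h213 _ _ _).trans h0) ((hE.h213 _ _ _).trans h1) h3 h2 ((hE.h213 _ _ _).trans h4) h6 h5 h8 h7 h9 ((hE.h213 _ _ _).trans h10) h12 h11 h14 h13 h15 h17 h16 h18 h19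
  rwa [L4_sw0 hE hs4, L2_sw0 hE hs2, hX] at h'

theorem goodS_sw1 (hE : Sy E) {q4 : ℕ → ℕ → ℕ → ℕ} {q2 : ℕ → ℕ → ℕ} {Z : ℕ → ℕ → ℕ → ℕ → ℕ → ℕ → ℕ → ℕ → ℕ → ℕ → ℕ → ℕ → ℕ → ℕ → ℕ → ℕ → ℕ → ℕ → ℕ → ℕ → ℕ}
    (hX : ∀ a b c d e f, ZE E Z a c b d e f = ZE E Z a b c d e f)
    (hs4 : sym4 q4 = true) (hs2 : sym2 q2 = true) (b012 b013 b023 b123 b014 b024 b124 b034 b134 b234 b015 b025 b125 b035 b135 b235 b045 b145 b245 b345 : ℕ)
    (h : GoodS E q4 q2 Z b012 b023 b013 b123 b024 b014 b124 b034 b234 b134 b025 b015 b125 b035 b235 b135 b045 b245 b145 b345) : GoodS E q4 q2 Z b012 b013 b023 b123 b014 b024 b124 b034 b134 b234 b015 b025 b125 b035 b135 b235 b045 b145 b245 b345 := by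
  intro a b c d e f h0 h1 h2 h3 h4 h5 h6 h7 h8 h9 h10 h11 h12 h13 h14 h15 h16 h17 h18 h19
  have h' := h a c b d e f ((hE.h132 _ _ _).trans h0) h2 h1 ((hE.h213 _ _ _).trans h3) h5 h4 ((hE.h213 _ _ _).trans h6) h7 h9 h8 h11 h10 ((hE.h213 _ _ _).trans h12) h13 h15 h14 h16 h18 h17 h19
  rwa [L4_sw1 hE hs4, L2_sw1 hE hs2, hX] at h'

theorem goodS_sw2 (hE : Sy E) {q4 : ℕ → ℕ → ℕ → ℕ} {q2 : ℕ → ℕ → ℕ} {Z : ℕ → ℕ → ℕ → ℕ → ℕ → ℕ → ℕ → ℕ → ℕ → ℕ → ℕ → ℕ → ℕ → ℕ → ℕ → ℕ → ℕ → ℕ → ℕ → ℕ → ℕ}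
    (hX : ∀ a b c d e f, ZE E Z a b d c e f = ZE E Z a b c d e f)
    (hs4 : sym4 q4 = true) (hs2 : sym2 q2 = true) (b012 b013 b023 b123 b014 b024 b124 b034 b134 b234 b015 b025 b125 b035 b135 b235 b045 b145 b245 b345 : ℕ)
    (h : GoodS E q4 q2 Z b013 b012 b023 b123 b014 b034 b134 b024 b124 b234 b015 b035 b135 b025 b125 b235 b045 b145 b345 b245) : GoodS E q4 q2 Z b012 b013 b023 b123 b014 b024 b124 b034 b134 b234 b015 b025 b125 b035 b135 b235 b045 b145 b245 b345 := by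
  intro a b c d e f h0 h1 h2 h3 h4 h5 h6 h7 h8 h9 h10 h11 h12 h13 h14 h15 h16 h17 h18 h19
  have h' := h a b d c e f h1 h0 ((hE.h132 _ _ _).trans h2) ((hE.h132 _ _ _).trans h3) h4 h7 h8 h5 h6 ((hE.h213 _ _ _).trans h9) h10 h13 h14 h11 h12 ((hE.h213 _ _ _).trans h15) h16 h17 h19 h18
  rwa [L4_sw2 hE hs4, L2_sw2 hE hs2, hX] at h'

theorem goodS_sw3 (hE : Sy E) {q4 : ℕ → ℕ → ℕ → ℕ} {q2 : ℕ → ℕ → ℕ} {Z : ℕ → ℕ → ℕ → ℕ → ℕ → ℕ → ℕ → ℕ → ℕ → ℕ → ℕ → ℕ → ℕ → ℕ → ℕ → ℕ → ℕ → ℕ → ℕ → ℕ → ℕ}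
    (hX : ∀ a b c d e f, ZE E Z a b c e d f = ZE E Z a b c d e f)
    (hs4 : sym4 q4 = true) (hs2 : sym2 q2 = true) (b012 b013 b023 b123 b014 b024 b124 b034 b134 b234 b015 b025 b125 b035 b135 b235 b045 b145 b245 b345 : ℕ)
    (h : GoodS E q4 q2 Z b012 b014 b024 b124 b013 b023 b123 b034 b134 b234 b015 b025 b125 b045 b145 b245 b035 b135 b235 b345) : GoodS E q4 q2 Z b012 b013 b023 b123 b014 b024 b124 b034 b134 b234 b015 b025 b125 b035 b135 b235 b045 b145 b245 b345 := by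
  intro a b c d e f h0 h1 h2 h3 h4 h5 h6 h7 h8 h9 h10 h11 h12 h13 h14 h15 h16 h17 h18 h19
  have h' := h a b c e d f h0 h4 h5 h6 h1 h2 h3 ((hE.h132 _ _ _).trans h7) ((hE.h132 _ _ _).trans h8) ((hE.h132 _ _ _).trans h9) h10 h11 h12 h16 h17 h18 h13 h14 h15 ((hE.h213 _ _ _).trans h19)
  rwa [L4_sw3 hE hs4, L2_sw3 hE hs2, hX] at h'

theorem goodS_sw4 (hE : Sy E) {q4 : ℕ → ℕ → ℕ → ℕ} {q2 : ℕ → ℕ → ℕ} {Z : ℕ → ℕ → ℕ → ℕ → ℕ → ℕ → ℕ → ℕ → ℕ → ℕ → ℕ → ℕ → ℕ → ℕ → ℕ → ℕ → ℕ → ℕ → ℕ → ℕ → ℕ}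
    (hX : ∀ a b c d e f, ZE E Z a b c d f e = ZE E Z a b c d e f)
    (hs4 : sym4 q4 = true) (hs2 : sym2 q2 = true) (b012 b013 b023 b123 b014 b024 b124 b034 b134 b234 b015 b025 b125 b035 b135 b235 b045 b145 b245 b345 : ℕ)
    (h : GoodS E q4 q2 Z b012 b013 b023 b123 b015 b025 b125 b035 b135 b235 b014 b024 b124 b034 b134 b234 b045 b145 b245 b345) : GoodS E q4 q2 Z b012 b013 b023 b123 b014 b024 b124 b034 b134 b234 b015 b025 b125 b035 b135 b235 b045 b145 b245 b345 := by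
  intro a b c d e f h0 h1 h2 h3 h4 h5 h6 h7 h8 h9 h10 h11 h12 h13 h14 h15 h16 h17 h18 h19
  have h' := h a b c d f e h0 h1 h2 h3 h10 h11 h12 h13 h14 h15 h4 h5 h6 h7 h8 h9 ((hE.h132 _ _ _).trans h16) ((hE.h132 _ _ _).trans h17) ((hE.h132 _ _ _).trans h18) ((hE.h132 _ _ _).trans h19)
  rwa [L4_sw4 hE hs4, L2_sw4 hE hs2, hX] at h'

theorem run_good (hE : Sy E) {q4 : ℕ → ℕ → ℕ → ℕ} {q2 : ℕ → ℕ → ℕ} {Z : ℕ → ℕ → ℕ → ℕ → ℕ → ℕ → ℕ → ℕ → ℕ → ℕ → ℕ → ℕ → ℕ → ℕ → ℕ → ℕ → ℕ → ℕ → ℕ → ℕ → ℕ}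
    (hX0 : ∀ a b c d e f, ZE E Z b a c d e f = ZE E Z a b c d e f)
    (hX1 : ∀ a b c d e f, ZE E Z a c b d e f = ZE E Z a b c d e f)
    (hX2 : ∀ a b c d e f, ZE E Z a b d c e f = ZE E Z a b c d e f)
    (hX3 : ∀ a b c d e f, ZE E Z a b c e d f = ZE E Z a b c d e f)
    (hX4 : ∀ a b c d e f, ZE E Z a b c d f e = ZE E Z a b c d e f)
    (hs4 : sym4 q4 = true) (hs2 : sym2 q2 = true)
    (hrep : ∀ r < 964, leafc q4 q2 Z (rep r) = true) (n : ℕ) :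
    ∀ w r b012 b013 b023 b123 b014 b024 b124 b034 b134 b234 b015 b025 b125 b035 b135 b235 b045 b145 b245 b345 : ℕ, run n w r b012 b013 b023 b123 b014 b024 b124 b034 b134 b234 b015 b025 b125 b035 b135 b235 b045 b145 b245 b345 = true → GoodS E q4 q2 Z b012 b013 b023 b123 b014 b024 b124 b034 b134 b234 b015 b025 b125 b035 b135 b235 b045 b145 b245 b345 := by
  induction n with
  | zero =>
    intro w r b012 b013 b023 b123 b014 b024 b124 b034 b134 b234 b015 b025 b125 b035 b135 b235 b045 b145 b245 b345 h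
    exact absurd h Bool.false_ne_true
  | succ n ih =>
    intro w r b012 b013 b023 b123 b014 b024 b124 b034 b134 b234 b015 b025 b125 b035 b135 b235 b045 b145 b245 b345 h
    change (cond (Nat.beq (Nat.mod w 8) 0) (run n (Nat.div w 8) r b012 b013 b123 b023 b014 b124 b024 b134 b034 b234 b015 b125 b025 b135 b035 b235 b145 b045 b245 b345)
      (cond (Nat.beq (Nat.mod w 8) 1) (run n (Nat.div w 8) r b012 b023 b013 b123 b024 b014 b124 b034 b234 b134 b025 b015 b125 b035 b235 b135 b045 b245 b145 b345)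
      (cond (Nat.beq (Nat.mod w 8) 2) (run n (Nat.div w 8) r b013 b012 b023 b123 b014 b034 b134 b024 b124 b234 b015 b035 b135 b025 b125 b235 b045 b145 b345 b245)
      (cond (Nat.beq (Nat.mod w 8) 3) (run n (Nat.div w 8) r b012 b014 b024 b124 b013 b023 b123 b034 b134 b234 b015 b025 b125 b045 b145 b245 b035 b135 b235 b345)
      (cond (Nat.beq (Nat.mod w 8) 4) (run n (Nat.div w 8) r b012 b013 b023 b123 b015 b025 b125 b035 b135 b235 b014 b024 b124 b034 b134 b234 b045 b145 b245 b345)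
      (and (Nat.blt r 964) (Nat.beq (cd20 b012 b013 b023 b123 b014 b024 b124 b034 b134 b234 b015 b025 b125 b035 b135 b235 b045 b145 b245 b345) (rep r)))))))) = true at h
    cases h0 : Nat.beq (Nat.mod w 8) 0 with
    | true => rw [h0] at h; exact goodS_sw0 hE hX0 hs4 hs2 _ _ _ _ _ _ _ _ _ _ _ _ _ _ _ _ _ _ _ _ (ih _ _ _ _ _ _ _ _ _ _ _ _ _ _ _ _ _ _ _ _ _ _ h)
    | false =>
    rw [h0] at h
    cases h1 : Nat.beq (Nat.mod w 8) 1 with
    | true => rw [h1] at h; exact goodS_sw1 hE hX1 hs4 hs2 _ _ _ _ _ _ _ _ _ _ _ _ _ _ _ _ _ _ _ _ (ih _ _ _ _ _ _ _ _ _ _ _ _ _ _ _ _ _ _ _ _ _ _ h)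
    | false =>
    rw [h1] at h
    cases h2 : Nat.beq (Nat.mod w 8) 2 with
    | true => rw [h2] at h; exact goodS_sw2 hE hX2 hs4 hs2 _ _ _ _ _ _ _ _ _ _ _ _ _ _ _ _ _ _ _ _ (ih _ _ _ _ _ _ _ _ _ _ _ _ _ _ _ _ _ _ _ _ _ _ h)
    | false =>
    rw [h2] at h
    cases h3 : Nat.beq (Nat.mod w 8) 3 with
    | true => rw [h3] at h; exact goodS_sw3 hE hX3 hs4 hs2 _ _ _ _ _ _ _ _ _ _ _ _ _ _ _ _ _ _ _ _ (ih _ _ _ _ _ _ _ _ _ _ _ _ _ _ _ _ _ _ _ _ _ _ h)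
    | false =>
    rw [h3] at h
    cases h4 : Nat.beq (Nat.mod w 8) 4 with
    | true => rw [h4] at h; exact goodS_sw4 hE hX4 hs4 hs2 _ _ _ _ _ _ _ _ _ _ _ _ _ _ _ _ _ _ _ _ (ih _ _ _ _ _ _ _ _ _ _ _ _ _ _ _ _ _ _ _ _ _ _ h)
    | false =>
    rw [h4] at h
    intro a b c d e f g0 g1 g2 g3 g4 g5 g6 g7 g8 g9 g10 g11 g12 g13 g14 g15 g16 g17 g18 g19
    subst g0 g1 g2 g3 g4 g5 g6 g7 g8 g9 g10 g11 g12 g13 g14 g15 g16 g17 g18 g19
    have hb := (Bool.and_eq_true _ _).mp h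
    have hr : r < 964 := Nat.le_of_ble_eq_true hb.1
    have h1 := hrep r hr
    rw [← Nat.eq_of_beq_eq_true hb.2, leafc_cd (hE.b _ _ _) (hE.b _ _ _) (hE.b _ _ _) (hE.b _ _ _) (hE.b _ _ _) (hE.b _ _ _) (hE.b _ _ _) (hE.b _ _ _) (hE.b _ _ _) (hE.b _ _ _) (hE.b _ _ _) (hE.b _ _ _) (hE.b _ _ _) (hE.b _ _ _) (hE.b _ _ _) (hE.b _ _ _) (hE.b _ _ _) (hE.b _ _ _) (hE.b _ _ _) (hE.b _ _ _)] at h1
    have h3 : K4l E q4 a b c d e f + K2l E q2 a b c d e f ≤ ZE E Z a b c d e f :=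
      Nat.le_of_ble_eq_true h1
    rwa [K4l_eq E q4 hE.h132 hE.h231 hE.h213 hE.h312, K2l_eq E q2 hE.h132 hE.h231 hE.h213 hE.h312] at h3

theorem ext_all (b012 b013 b023 b123 b014 b024 b124 b034 b134 b234 : ℕ) (hb012 : Bt b012) (hb013 : Bt b013) (hb023 : Bt b023) (hb123 : Bt b123) (hb014 : Bt b014) (hb024 : Bt b024) (hb124 : Bt b124) (hb034 : Bt b034) (hb134 : Bt b134) (hb234 : Bt b234) (ht : tg b012 b013 b023 b123 b014 b024 b124 b034 b134 b234 = 4) :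
    ext b012 b013 b023 b123 b014 b024 b124 b034 b134 b234 = true := by
  have h : part b012 b013 = true := by
    rcases hb012 with rfl | rfl <;> rcases hb013 with rfl | rfl
    exacts [part00, part01, part10, part11]
  have h2 := (B2_true (B2_true (B2_true (B2_true (B2_true (B2_true (B2_true (B2_true h hb023) hb123) hb014) hb024) hb124) hb034) hb134) hb234)
  refine or_false_left h2 ?_
  rw [ht]
  rfl

theorem six_all (hE : Sy E) (hK : NoK4 E) {q4 : ℕ → ℕ → ℕ → ℕ} {q2 : ℕ → ℕ → ℕ} {Z : ℕ → ℕ → ℕ → ℕ → ℕ → ℕ → ℕ → ℕ → ℕ → ℕ → ℕ → ℕ → ℕ → ℕ → ℕ → ℕ → ℕ → ℕ → ℕ → ℕ → ℕ}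
    (hX0 : ∀ a b c d e f, ZE E Z b a c d e f = ZE E Z a b c d e f)
    (hX1 : ∀ a b c d e f, ZE E Z a c b d e f = ZE E Z a b c d e f)
    (hX2 : ∀ a b c d e f, ZE E Z a b d c e f = ZE E Z a b c d e f)
    (hX3 : ∀ a b c d e f, ZE E Z a b c e d f = ZE E Z a b c d e f)
    (hX4 : ∀ a b c d e f, ZE E Z a b c d f e = ZE E Z a b c d e f)
    (hs4 : sym4 q4 = true) (hs2 : sym2 q2 = true)
    (hrep : ∀ r < 964, leafc q4 q2 Z (rep r) = true) (a b c d e f : V) :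
    L4 E q4 a b c d e f + L2 E q2 a b c d e f ≤ ZE E Z a b c d e f := by
  have h := (B2_true (B2_true (B2_true (B2_true (B2_true (B2_true (B2_true (B2_true (B2_true (B2_true walk_all (hE.b a b c)) (hE.b a b d)) (hE.b a c d)) (hE.b b c d)) (hE.b a b e)) (hE.b a c e)) (hE.b b c e)) (hE.b a d e)) (hE.b b d e)) (hE.b c d e))
  have h5 : five (E a b c) (E a b d) (E a c d) (E b c d) (E a b e) (E a c e) (E b c e) (E a d e) (E b d e) (E c d e) = false := by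
    unfold five
    rw [hK a b c d, hK a b c e, hK a b d e, hK a c d e, hK b c d e]
    rfl
  have hw := or_false_left h h5
  have h3 := walk_goodX hE hX0 hX1 hX2 hX3 hs4 hs2 (C := 0) (P := 1) (X := ZE E Z)
    (fun b012 b013 b023 b123 b014 b024 b124 b034 b134 b234 ht => by
      intro a b c d e f g0 g1 g2 g3 g4 g5 g6 g7 g8 g9
      subst g0 g1 g2 g3 g4 g5 g6 g7 g8 g9
      have h := ext_all _ _ _ _ _ _ _ _ _ _ (hE.b _ _ _) (hE.b _ _ _) (hE.b _ _ _) (hE.b _ _ _) (hE.b _ _ _) (hE.b _ _ _) (hE.b _ _ _) (hE.b _ _ _) (hE.b _ _ _) (hE.b _ _ _) ht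
      have h2 := (or_false_left (or_false_left (or_false_left (B2_true (or_false_left (or_false_left (B2_true (or_false_left (B2_true (B2_true (or_false_left (or_false_left (B2_true (or_false_left (B2_true (B2_true (or_false_left (B2_true (B2_true (B2_true h (hE.b a b f)) (hE.b a c f)) (hE.b b c f)) (hK a b c f)) (hE.b a d f)) (hE.b b d f)) (hK a b d f)) (hE.b c d f)) (hK a c d f)) (hK b c d f)) (hE.b a e f)) (hE.b b e f)) (hK a b e f)) (hE.b c e f)) (hK a c e f)) (hK b c e f)) (hE.b d e f)) (hK a d e f)) (hK b d e f)) (hK c d e f))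
      have h4 := run_good hE hX0 hX1 hX2 hX3 hX4 hs4 hs2 hrep 16 _ _ _ _ _ _ _ _ _ _ _ _ _ _ _ _ _ _ _ _ _ _ h2 a b c d e f rfl rfl rfl rfl rfl rfl rfl rfl rfl rfl rfl rfl rfl rfl rfl rfl rfl rfl rfl rfl
      rwa [← Nat.zero_add (ZE E Z a b c d e f), ← Nat.one_mul (ZE E Z a b c d e f)] at h4) _ _ _ _ _ _ _ _ _ _ _ hw
    a b c d e f rfl rfl rfl rfl rfl rfl rfl rfl rfl rfl
  rwa [Nat.zero_add, Nat.one_mul] at h3

end

end Pool.Agent.U991.L6
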