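import Pool.Agent.U991.L6.Tur
import Pool.Agent.U991.L6.C15
import Pool.Agent.U991.L6.C29
import Pool.Agent.U991.L6.C31
import Pool.Agent.U991.L6.C58
import Pool.Agent.U991.L6.C59
import Pool.Agent.U991.L6.C62
import Pool.Agent.U991.L6.C63
import Pool.Agent.U991.L6.C126
import Pool.Agent.U991.L6.C127
import Pool.Agent.U991.L6.C185
import Pool.Agent.U991.L6.C187
import Pool.Agent.U991.L6.C191
import Pool.Agent.U991.L6.C207
import Pool.Agent.U991.L6.C220
import Pool.Agent.U991.L6.C221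
import Pool.Agent.U991.L6.C223
import Pool.Agent.U991.L6.C254
import Pool.Agent.U991.L6.C255
import Pool.Agent.U991.L6.C495
import Pool.Agent.U991.L6.C511
import Pool.Agent.U991.L6.C1023

/-! The inequality for all connected graphs on five vertices. -/

set_option autoImplicit false
set_option maxRecDepth 100000
set_option maxHeartbeats 4000000
open Finset

namespace Pool.Agent.U991.L6
open Pool.Agent.H122R2.N6 Pool.Agent.R85.GT
open Pool.Agent.TH773.ST (Rf Rf_sy)
open scoped Classical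

/-- the inequality for one code -/
def QR (r : ℕ) : Prop := ∀ (n : ℕ) (H : Finset (Finset (Fin n))), (∀ e ∈ H, e.card = 3) →
  Pool.Agent.TH773.Turan34.K43Free H → ∃ g : Fin n → Fin 3,
    n ^ 3 * (symmDiff H (Pool.Agent.TH773.Turan34.turan g)).card +
      418037760000 * (NL (tri H) 32 + NL (tri H) r) ≤ 71680000 * ((3240 + 8 * NL Rf r) * n ^ 6)

theorem toQR {r c D K : ℕ} (hc : NL Rf r = c)
    (h : ∀ (n : ℕ) (H : Finset (Finset (Fin n))), NoK4 (tri H) →
      29160 * (NL (tri H) 32 + NL (tri H) r) ≤ D * (Fintype.card (Fin n)) ^ 6 +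
        K * ∑ x : Fin 6 → Fin n, Pool.Agent.Y850.FA.XM (tri H) 14 (x 0) (x 1) (x 2) (x 3) (x 4) (x 5))
    (hD : (D = 5 * (3240 + 8 * c - 24) ∧ K = 972) ∨ (D = 5 * (3240 + 8 * c - 6) ∧ K = 243)) : QR r := by
  intro n H hH hK
  have h1 := h n H (tri_noK4 hH hK)
  rw [Fintype.card_fin] at h1
  have h2 := F5.sum_XM_le hH (tri_noK4 hH hK)
  obtain ⟨g, hg⟩ := Pool.Agent.Y850.FA.core hH hK
  refine ⟨g, ?_⟩
  rw [hc]
  generalize NL (tri H) 32 = x at h1 ⊢
  generalize NL (tri H) r = z at h1 ⊢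
  generalize (∑ x : Fin 6 → Fin n, Pool.Agent.Y850.FA.XM (tri H) 14 (x 0) (x 1) (x 2) (x 3) (x 4) (x 5)) = X at h1 h2
  generalize (((univ : Finset (Fin n)).powersetCard 6).filter fun S =>
      (H.filter fun e => e ⊆ S).card = 14).card = N at h2 hg
  generalize n ^ 3 * (symmDiff H (Pool.Agent.TH773.Turan34.turan g)).card = y at hg ⊢
  have e1 : (3240 + 8 * c) * n ^ 6 = 3240 * n ^ 6 + 8 * (c * n ^ 6) := by ring
  rw [e1]
  rcases hD with ⟨rfl, rfl⟩ | ⟨rfl, rfl⟩
  · have e2 : 5 * (3240 + 8 * c - 24) * n ^ 6 = 16080 * n ^ 6 + 40 * (c * n ^ 6) := by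
      rw [show 3240 + 8 * c - 24 = 3216 + 8 * c by omega]; ring
    rw [e2] at h1
    generalize c * n ^ 6 = B at h1 ⊢
    generalize n ^ 6 = A at h1 hg ⊢
    omega
  · have e2 : 5 * (3240 + 8 * c - 6) * n ^ 6 = 16170 * n ^ 6 + 40 * (c * n ^ 6) := by
      rw [show 3240 + 8 * c - 6 = 3234 + 8 * c by omega]; ring
    rw [e2] at h1
    generalize c * n ^ 6 = B at h1 ⊢
    generalize n ^ 6 = A at h1 hg ⊢
    omega

theorem q402 : QR 402 := toQR (c := 99) (by rw [NL_Rf]; decide +kernel)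
  (fun _ H hK => C15.main (tri_sy H) hK) (Or.inl ⟨by norm_num, by norm_num⟩)

theorem q209 : QR 209 := toQR (c := 90) (by rw [NL_Rf]; decide +kernel)
  (fun _ H hK => C29.main (tri_sy H) hK) (Or.inl ⟨by norm_num, by norm_num⟩)

theorem q410 : QR 410 := toQR (c := 48) (by rw [NL_Rf]; decide +kernel)
  (fun _ H hK => C31.main (tri_sy H) hK) (Or.inl ⟨by norm_num, by norm_num⟩)

theorem q212 : QR 212 := toQR (c := 87) (by rw [NL_Rf]; decide +kernel)
  (fun _ H hK => C58.main (tri_sy H) hK) (Or.inr ⟨by norm_num, by norm_num⟩)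

theorem q244 : QR 244 := toQR (c := 48) (by rw [NL_Rf]; decide +kernel)
  (fun _ H hK => C59.main (tri_sy H) hK) (Or.inl ⟨by norm_num, by norm_num⟩)

theorem q355 : QR 355 := toQR (c := 72) (by rw [NL_Rf]; decide +kernel)
  (fun _ H hK => C62.main (tri_sy H) hK) (Or.inl ⟨by norm_num, by norm_num⟩)

theorem q371 : QR 371 := toQR (c := 36) (by rw [NL_Rf]; decide +kernel)
  (fun _ H hK => C63.main (tri_sy H) hK) (Or.inl ⟨by norm_num, by norm_num⟩)

theorem q725 : QR 725 := toQR (c := 63) (by rw [NL_Rf]; decide +kernel)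
  (fun _ H hK => C126.main (tri_sy H) hK) (Or.inl ⟨by norm_num, by norm_num⟩)

theorem q757 : QR 757 := toQR (c := 30) (by rw [NL_Rf]; decide +kernel)
  (fun _ H hK => C127.main (tri_sy H) hK) (Or.inl ⟨by norm_num, by norm_num⟩)

theorem q217 : QR 217 := toQR (c := 45) (by rw [NL_Rf]; decide +kernel)
  (fun _ H hK => C185.main (tri_sy H) hK) (Or.inr ⟨by norm_num, by norm_num⟩)

theorem q363 : QR 363 := toQR (c := 36) (by rw [NL_Rf]; decide +kernel)
  (fun _ H hK => C187.main (tri_sy H) hK) (Or.inl ⟨by norm_num, by norm_num⟩)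

theorem q379 : QR 379 := toQR (c := 30) (by rw [NL_Rf]; decide +kernel)
  (fun _ H hK => C191.main (tri_sy H) hK) (Or.inl ⟨by norm_num, by norm_num⟩)

theorem q470 : QR 470 := toQR (c := 30) (by rw [NL_Rf]; decide +kernel)
  (fun _ H hK => C207.main (tri_sy H) hK) (Or.inl ⟨by norm_num, by norm_num⟩)

theorem q358 : QR 358 := toQR (c := 48) (by rw [NL_Rf]; decide +kernel)
  (fun _ H hK => C220.main (tri_sy H) hK) (Or.inr ⟨by norm_num, by norm_num⟩)

theorem q252 : QR 252 := toQR (c := 36) (by rw [NL_Rf]; decide +kernel)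
  (fun _ H hK => C221.main (tri_sy H) hK) (Or.inl ⟨by norm_num, by norm_num⟩)

theorem q478 : QR 478 := toQR (c := 27) (by rw [NL_Rf]; decide +kernel)
  (fun _ H hK => C223.main (tri_sy H) hK) (Or.inl ⟨by norm_num, by norm_num⟩)

theorem q733 : QR 733 := toQR (c := 30) (by rw [NL_Rf]; decide +kernel)
  (fun _ H hK => C254.main (tri_sy H) hK) (Or.inl ⟨by norm_num, by norm_num⟩)

theorem q765 : QR 765 := toQR (c := 24) (by rw [NL_Rf]; decide +kernel)
  (fun _ H hK => C255.main (tri_sy H) hK) (Or.inl ⟨by norm_num, by norm_num⟩)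

theorem q955 : QR 955 := toQR (c := 24) (by rw [NL_Rf]; decide +kernel)
  (fun _ H hK => C495.main (tri_sy H) hK) (Or.inl ⟨by norm_num, by norm_num⟩)

theorem q991 : QR 991 := toQR (c := 21) (by rw [NL_Rf]; decide +kernel)
  (fun _ H hK => C511.main (tri_sy H) hK) (Or.inl ⟨by norm_num, by norm_num⟩)

theorem q1023 : QR 1023 := toQR (c := 18) (by rw [NL_Rf]; decide +kernel)
  (fun _ H hK => C1023.main (tri_sy H) hK) (Or.inl ⟨by norm_num, by norm_num⟩)

theorem QR_rep5 {r : ℕ} (h : isrep5 r = true) : QR r :=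
  isrep5_cases h q209 q212 q217 q244 q252 q355 q358 q363 q371 q379 q402 q410 q470 q478 q725 q733 q757 q765 q955 q991 q1023

theorem main5 {G : SimpleGraph (Fin 5)} (hG : G.Connected) {n : ℕ} {H : Finset (Finset (Fin n))}
    (hH : ∀ e ∈ H, e.card = 3) (hK : Pool.Agent.TH773.Turan34.K43Free H) : ∃ g : Fin n → Fin 3,
    n ^ 3 * (symmDiff H (Pool.Agent.TH773.Turan34.turan g)).card +
      418037760000 * (NL (tri H) 32 + homsL (tri H) G) ≤
        71680000 * ((3240 + 8 * homsL Rf G) * n ^ 6) := by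
  have h1 := ends_NL (tri_sy H) 7 (ad_Bt G 3 4) (ad_Bt G 2 4) (ad_Bt G 1 4) (ad_Bt G 0 4) (ad_Bt G 2 3) (ad_Bt G 1 3) (ad_Bt G 0 3) (ad_Bt G 1 2) (ad_Bt G 0 2) (ad_Bt G 0 1)
  have h2 := ends_NL Rf_sy 7 (ad_Bt G 3 4) (ad_Bt G 2 4) (ad_Bt G 1 4) (ad_Bt G 0 4) (ad_Bt G 2 3) (ad_Bt G 1 3) (ad_Bt G 0 3) (ad_Bt G 1 2) (ad_Bt G 0 2) (ad_Bt G 0 1)
  obtain ⟨g, hg⟩ := QR_rep5 (rep5_of hG) n H hH hK
  refine ⟨g, ?_⟩
  rw [h1, h2] at hg
  rw [← NL5 (tri_sy H) G, ← NL5 Rf_sy G]
  exact hg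

theorem NL_edge_tri {n : ℕ} {H : Finset (Finset (Fin n))} (hH : ∀ e ∈ H, e.card = 3) :
    NL (tri H) 32 = n ^ 3 * (6 * H.card) := by
  rw [NL_edge (tri_sy H), Fintype.card_fin]
  exact congrArg (n ^ 3 * ·) (Pool.Agent.TH773.ST.S3_tri hH)

theorem fiber6 (m : ℕ) (c : Fin 6 → Fin 3) :
    (univ.filter fun x : Fin 6 → Fin (3 * m) => (fun i => F5.g0 m (x i)) = c).card = m ^ 6 := by
  have h : (univ.filter fun x : Fin 6 → Fin (3 * m) => (fun i => F5.g0 m (x i)) = c) =
      Fintype.piFinset fun i => univ.filter fun v => F5.g0 m v = c i := by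
    ext x
    rw [mem_filter, Fintype.mem_piFinset]
    simp only [mem_univ, true_and, mem_filter]
    exact ⟨fun hx i => congrFun hx i, fun hx => funext hx⟩
  rw [h, Fintype.card_piFinset]
  simp only [F5.g0_card, prod_const, card_univ, Fintype.card_fin]

theorem NL_col (m f : ℕ) :
    NL (fun a b c : Fin (3 * m) => Rf (F5.g0 m a) (F5.g0 m b) (F5.g0 m c)) f = m ^ 6 * NL Rf f := by
  unfold NL SL
  have h1 : ∀ x : Fin 6 → Fin (3 * m),
      LE (sbn f) (fun a b c : Fin (3 * m) => Rf (F5.g0 m a) (F5.g0 m b) (F5.g0 m c))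
        (x 0) (x 1) (x 2) (x 3) (x 4) (x 5) =
      (fun c : Fin 6 → Fin 3 => LE (sbn f) Rf (c 0) (c 1) (c 2) (c 3) (c 4) (c 5))
        (fun i => F5.g0 m (x i)) := fun x => rfl
  rw [sum_congr rfl fun x _ => h1 x, ← sum_fiberwise (s := univ)
    (g := fun x : Fin 6 → Fin (3 * m) => fun i => F5.g0 m (x i)), mul_sum]
  refine sum_congr rfl fun c _ => ?_
  rw [sum_congr rfl (g := fun _ => (fun c : Fin 6 → Fin 3 => LE (sbn f) Rf (c 0) (c 1) (c 2) (c 3) (c 4) (c 5)) c)
    (fun x hx => by rw [(mem_filter.mp hx).2]), sum_const, fiber6, smul_eq_mul]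

theorem poly6 (n : ℕ) : n ^ 6 ≤ n.descFactorial 6 + 15 * n ^ 5 := by
  rcases lt_or_ge n 5 with h | h
  · interval_cases n <;> decide
  · obtain ⟨k, rfl⟩ := Nat.exists_eq_add_of_le h
    have e : (5 + k).descFactorial 6 = k * ((k + 1) * ((k + 2) * ((k + 3) * ((k + 4) * (k + 5))))) := by
      simp only [Nat.descFactorial_succ, Nat.descFactorial_zero, mul_one]
      have a0 : 5 + k - 0 = k + 5 := by omega
      have a1 : 5 + k - 1 = k + 4 := by omega
      have a2 : 5 + k - 2 = k + 3 := by omega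
      have a3 : 5 + k - 3 = k + 2 := by omega
      have a4 : 5 + k - 4 = k + 1 := by omega
      have a5 : 5 + k - 5 = k := by omega
      rw [a0, a1, a2, a3, a4, a5]
    rw [e]
    have : k * ((k + 1) * ((k + 2) * ((k + 3) * ((k + 4) * (k + 5))))) + 15 * (5 + k) ^ 5 =
        (5 + k) ^ 6 + (85 * k ^ 4 + 1475 * k ^ 3 + 9649 * k ^ 2 + 28245 * k + 31250) := by ring
    rw [this]
    exact Nat.le_add_right _ _

theorem noninj6 (n : ℕ) :
    (univ.filter fun x : Fin 6 → Fin n => ¬ Function.Injective x).card ≤ 15 * n ^ 5 := by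
  have h1 : (univ.filter fun x : Fin 6 → Fin n => Function.Injective x).card
      = n.descFactorial 6 := by
    rw [← Fintype.card_subtype, Fintype.card_congr (Equiv.subtypeInjectiveEquivEmbedding (Fin 6) (Fin n)),
      Fintype.card_embedding_eq, Fintype.card_fin, Fintype.card_fin]
  have h2 : (univ.filter fun x : Fin 6 → Fin n => Function.Injective x).card +
      (univ.filter fun x : Fin 6 → Fin n => ¬ Function.Injective x).card = n ^ 6 := by
    rw [card_filter_add_card_filter_not, card_univ, Fintype.card_fun, Fintype.card_fin,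
      Fintype.card_fin]
  have := poly6 n
  omega

theorem NL_turan (m f : ℕ) : m ^ 6 * NL Rf f ≤
    NL (tri (Pool.Agent.TH773.Turan34.turan (F5.g0 m))) f + 15 * (3 * m) ^ 5 := by
  rw [← NL_col]
  have h := noninj6 (3 * m)
  have h1 : NL (fun a b c : Fin (3 * m) => Rf (F5.g0 m a) (F5.g0 m b) (F5.g0 m c)) f
      ≤ NL (tri (Pool.Agent.TH773.Turan34.turan (F5.g0 m))) f +
        (univ.filter fun x : Fin 6 → Fin (3 * m) => ¬ Function.Injective x).card := by
    rw [card_filter]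
    unfold NL SL
    rw [← sum_add_distrib]
    refine sum_le_sum fun x _ => ?_
    by_cases hi : Function.Injective x
    · have ne : ∀ i j : Fin 6, i ≠ j → x i ≠ x j := fun i j hij he => hij (hi he)
      have e : ∀ i j k : Fin 6, i ≠ j → i ≠ k → j ≠ k →
          tri (Pool.Agent.TH773.Turan34.turan (F5.g0 m)) (x i) (x j) (x k) =
            Rf (F5.g0 m (x i)) (F5.g0 m (x j)) (F5.g0 m (x k)) :=
        fun i j k hij hik hjk => Pool.Agent.TH773.CL.tri_turan (ne i j hij) (ne i k hik) (ne j k hjk)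
      unfold LE
      rw [e 3 4 5 (by decide) (by decide) (by decide), e 2 4 5 (by decide) (by decide) (by decide),
        e 1 4 5 (by decide) (by decide) (by decide), e 0 4 5 (by decide) (by decide) (by decide),
        e 2 3 5 (by decide) (by decide) (by decide), e 1 3 5 (by decide) (by decide) (by decide),
        e 0 3 5 (by decide) (by decide) (by decide), e 1 2 5 (by decide) (by decide) (by decide),
        e 0 2 5 (by decide) (by decide) (by decide), e 0 1 5 (by decide) (by decide) (by decide)]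
      exact Nat.le_add_right _ _
    · rw [if_pos hi]
      exact (F5.sbn_le _ _).trans (Nat.le_add_left _ _)
  omega

end Pool.Agent.U991.L6
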