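import Pool.Agent.U991.L6.Graph

/-! The number of homomorphisms into the pattern of Turán's construction. -/

set_option autoImplicit false
set_option maxRecDepth 100000
set_option maxHeartbeats 4000000
open Finset

namespace Pool.Agent.U991.L6
open Pool.Agent.H122R2.N6 Pool.Agent.R85.GT
open Pool.Agent.TH773.ST (Rf Rf_sy)

section
variable {V : Type} [Fintype V]

theorem sum_cons {n : ℕ} (g : (Fin (n + 1) → V) → ℕ) :
    ∑ x, g x = ∑ a, ∑ y : Fin n → V, g (Fin.cons a y) := by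
  rw [← (Fin.consEquiv (fun _ => V)).sum_comp, Fintype.sum_prod_type]
  rfl

theorem sum6 (g : V → V → V → V → V → V → ℕ) :
    ∑ x : Fin 6 → V, g (x 0) (x 1) (x 2) (x 3) (x 4) (x 5) =
      ∑ a, ∑ b, ∑ c, ∑ d, ∑ e, ∑ f, g a b c d e f := by
  rw [sum_cons]
  refine sum_congr rfl fun a _ => ?_
  rw [sum_cons]
  refine sum_congr rfl fun b _ => ?_
  rw [sum_cons]
  refine sum_congr rfl fun c _ => ?_
  rw [sum_cons]
  refine sum_congr rfl fun d _ => ?_
  rw [sum_cons]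
  refine sum_congr rfl fun e _ => ?_
  rw [sum_cons]
  refine sum_congr rfl fun f _ => ?_
  rw [Fintype.sum_unique]
  rfl

theorem NL_edge {E : V → V → V → ℕ} (hE : Sy E) :
    NL E 32 = (Fintype.card V) ^ 3 * ∑ a, ∑ b, ∑ c, E a b c := by
  have h1 : NL E 32 = ∑ x : Fin 6 → V, E (x 1) (x 3) (x 5) := by
    unfold NL SL
    refine sum_congr rfl fun x _ => ?_
    have z : Bt 0 := Or.inl rfl
    have o : Bt 1 := Or.inr rfl
    change sbn (cd5 0 0 0 0 0 1 0 0 0 0) (cd5 (E (x 3) (x 4) (x 5)) (E (x 2) (x 4) (x 5)) (E (x 1) (x 4) (x 5)) (E (x 0) (x 4) (x 5)) (E (x 2) (x 3) (x 5)) (E (x 1) (x 3) (x 5)) (E (x 0) (x 3) (x 5)) (E (x 1) (x 2) (x 5)) (E (x 0) (x 2) (x 5)) (E (x 0) (x 1) (x 5))) = _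
    rw [sb_iff z z z z z o z z z z (hE.b _ _ _) (hE.b _ _ _) (hE.b _ _ _) (hE.b _ _ _) (hE.b _ _ _) (hE.b _ _ _) (hE.b _ _ _) (hE.b _ _ _) (hE.b _ _ _) (hE.b _ _ _)]
    rcases hE.b (x 1) (x 3) (x 5) with h | h <;> simp [h]
  rw [h1, sum6 (fun _ b _ d _ f => E b d f)]
  simp only [sum_const, card_univ, smul_eq_mul, ← mul_sum]
  ring

end

/-- the pattern of Turán's construction, as a table -/
def rn (a b c : ℕ) : ℕ := Nat.mod (Nat.shiftRight 0x179cbaa (Nat.add (Nat.mul 9 a) (Nat.add (Nat.mul 3 b) c))) 2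

theorem rn_eq : ∀ a b c : Fin 3, Rf a b c = rn a.val b.val c.val := by decide

theorem sum3 (F : ℕ → ℕ) : ∑ a : Fin 3, F a.val = nsum 3 F := by
  rw [Fin.sum_univ_eq_sum_range F 3, nsum_eq]

/-- the number of colourings -/
def tc (r : ℕ) : ℕ := nsum 3 fun a => nsum 3 fun b => nsum 3 fun c => nsum 3 fun d => nsum 3 fun e =>
  nsum 3 fun f => LE (sbn r) rn a b c d e f

theorem NL_Rf (r : ℕ) : NL Rf r = tc r := by
  unfold NL SL
  rw [sum6 (fun a b c d e f => LE (sbn r) Rf a b c d e f)]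
  have h : ∀ a b c d e f : Fin 3, LE (sbn r) Rf a b c d e f =
      LE (sbn r) rn a.val b.val c.val d.val e.val f.val := by
    intro a b c d e f
    unfold LE
    simp only [rn_eq]
  simp only [h]
  have s1 : ∀ a b c d e : ℕ, ∑ f : Fin 3, LE (sbn r) rn a b c d e f.val =
      nsum 3 fun f => LE (sbn r) rn a b c d e f := fun _ _ _ _ _ => sum3 _
  simp only [s1]
  have s2 : ∀ a b c d : ℕ, ∑ e : Fin 3, (nsum 3 fun f => LE (sbn r) rn a b c d e.val f) =
      nsum 3 fun e => nsum 3 fun f => LE (sbn r) rn a b c d e f :=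
    fun a b c d => sum3 (fun e => nsum 3 fun f => LE (sbn r) rn a b c d e f)
  simp only [s2]
  have s3 : ∀ a b c : ℕ, ∑ d : Fin 3, (nsum 3 fun e => nsum 3 fun f => LE (sbn r) rn a b c d.val e f) =
      nsum 3 fun d => nsum 3 fun e => nsum 3 fun f => LE (sbn r) rn a b c d e f :=
    fun a b c => sum3 (fun d => nsum 3 fun e => nsum 3 fun f => LE (sbn r) rn a b c d e f)
  simp only [s3]
  have s4 : ∀ a b : ℕ, ∑ c : Fin 3, (nsum 3 fun d => nsum 3 fun e => nsum 3 fun f => LE (sbn r) rn a b c.val d e f) =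
      nsum 3 fun c => nsum 3 fun d => nsum 3 fun e => nsum 3 fun f => LE (sbn r) rn a b c d e f :=
    fun a b => sum3 (fun c => nsum 3 fun d => nsum 3 fun e => nsum 3 fun f => LE (sbn r) rn a b c d e f)
  simp only [s4]
  have s5 : ∀ a : ℕ, ∑ b : Fin 3, (nsum 3 fun c => nsum 3 fun d => nsum 3 fun e => nsum 3 fun f => LE (sbn r) rn a b.val c d e f) =
      nsum 3 fun b => nsum 3 fun c => nsum 3 fun d => nsum 3 fun e => nsum 3 fun f => LE (sbn r) rn a b c d e f :=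
    fun a => sum3 (fun b => nsum 3 fun c => nsum 3 fun d => nsum 3 fun e => nsum 3 fun f => LE (sbn r) rn a b c d e f)
  simp only [s5]
  exact sum3 (fun a => nsum 3 fun b => nsum 3 fun c => nsum 3 fun d => nsum 3 fun e => nsum 3 fun f => LE (sbn r) rn a b c d e f)

theorem NL_edge_Rf : NL Rf 32 = 405 := by rw [NL_Rf]; decide +kernel

end Pool.Agent.U991.L6
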